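import Pool.Agent.MP_709f11_lc.Statement
import Pool.Agent.NPC.More
import Pool.Agent.NPC.Pair

/-!
# The restricted problem is in NP
-/

namespace Pool.Agent.MP_709f11_lc

open Pool.NPC

/-- entry of the adjacency matrix -/
def adjS (x : List Bool) (n u v : ℕ) : Bool := x.getD (n + 1 + (u * n + v)) false

open Classical in
theorem eq_encode_iff {n : ℕ} (G : SimpleGraph (Fin n)) (x : List Bool) :
    x = encodeGraph G ↔ x.length = n + 1 + n * n ∧ (∀ i < n, x.getD i false = true) ∧
      x.getD n false = false ∧ ∀ u v : Fin n, adjS x n u v = decide (G.Adj u v) := by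
  have hlen : (encodeGraph G).length = n + 1 + n * n := by
    simp [encodeGraph]
    omega
  have h1 : ∀ i < n, (encodeGraph G).getD i false = true := by
    intro i hi
    rw [List.getD_eq_getElem?_getD]
    unfold encodeGraph
    rw [List.getElem?_append_left (by simpa using hi)]
    simp [hi]
  have h2 : (encodeGraph G).getD n false = false := by
    rw [List.getD_eq_getElem?_getD]
    unfold encodeGraph
    rw [List.getElem?_append_right (by simp)]
    simp
  have h3 : ∀ u v : Fin n, adjS (encodeGraph G) n u v = decide (G.Adj u v) := by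
    intro u v
    have hlt : (u : ℕ) * n + v < n * n := by
      have h1 := u.isLt
      have h2 := v.isLt
      calc (u : ℕ) * n + v < u * n + n := by omega
        _ = (u + 1) * n := by ring
        _ ≤ n * n := Nat.mul_le_mul_right _ h1
    unfold adjS
    rw [List.getD_eq_getElem?_getD]
    unfold encodeGraph
    rw [List.getElem?_append_right (by simp; omega)]
    simp only [List.length_replicate]
    rw [show n + 1 + ((u : ℕ) * n + v) - n = ((u : ℕ) * n + v) + 1 by omega,
      List.getElem?_cons_succ, List.getElem?_ofFn]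
    simp only [hlt, dif_pos, Option.getD_some]
    have e1 : (⟨(u : ℕ) * n + v, hlt⟩ : Fin (n * n)).divNat = u := by
      apply Fin.ext
      show ((u : ℕ) * n + v) / n = u
      rw [Nat.mul_comm, Nat.mul_add_div (by have := u.isLt; omega), Nat.div_eq_of_lt v.isLt]
      simp
    have e2 : (⟨(u : ℕ) * n + v, hlt⟩ : Fin (n * n)).modNat = v := by
      apply Fin.ext
      show ((u : ℕ) * n + v) % n = v
      rw [Nat.mul_comm, Nat.mul_add_mod, Nat.mod_eq_of_lt v.isLt]
    rw [e1, e2]
  constructor
  · rintro rfl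
    exact ⟨hlen, h1, h2, h3⟩
  · rintro ⟨k1, k2, k3, k4⟩
    apply List.ext_getElem (by rw [k1, hlen])
    intro i hi hi'
    have e1 : x[i] = x.getD i false := by
      rw [List.getD_eq_getElem?_getD, List.getElem?_eq_getElem hi]; rfl
    have e2 : (encodeGraph G)[i] = (encodeGraph G).getD i false := by
      rw [List.getD_eq_getElem?_getD, List.getElem?_eq_getElem hi']; rfl
    rw [e1, e2]
    rcases lt_trichotomy i n with h | h | h
    · rw [k2 i h, h1 i h]
    · rw [h, k3, h2]
    · have hn : 0 < n := by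
        by_contra hn
        have : n = 0 := by omega
        subst this
        rw [k1] at hi
        omega
      have hlt : i - (n + 1) < n * n := by rw [k1] at hi; omega
      have hu : (i - (n + 1)) / n < n := Nat.div_lt_of_lt_mul hlt
      have hv : (i - (n + 1)) % n < n := Nat.mod_lt _ hn
      have e3 := k4 ⟨_, hu⟩ ⟨_, hv⟩
      have e4 := h3 ⟨_, hu⟩ ⟨_, hv⟩
      unfold adjS at e3 e4
      have e5 : n + 1 + ((i - (n + 1)) / n * n + (i - (n + 1)) % n) = i := by
        rw [Nat.mul_comm, Nat.div_add_mod]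
        omega
      simp only [e5] at e3 e4
      rw [e3, e4]

/-- colour of a vertex given by a certificate -/
def colS (p : ℕ) (w : List Bool) (i : ℕ) : ℕ :=
  (List.range (p + 1)).countP fun c => w.getD (i * (p + 1) + c) false

theorem colS_lt (p : ℕ) (w : List Bool) (i : ℕ) : colS p w i < p + 2 := by
  have : colS p w i ≤ (List.range (p + 1)).length := List.countP_le_length
  simp only [List.length_range] at this
  omega

/-- certificate of a colouring -/
def certS (p n : ℕ) (f : ℕ → ℕ) : List Bool :=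
  List.ofFn fun k : Fin (n * (p + 1)) => decide (k.val % (p + 1) < f (k.val / (p + 1)))

theorem countP_range_lt (m k : ℕ) (h : k ≤ m) :
    (List.range m).countP (fun c => decide (c < k)) = k := by
  induction m with
  | zero => simp; omega
  | succ m ih =>
    rw [List.range_succ, List.countP_append]
    by_cases hk : k ≤ m
    · rw [ih hk]
      simp
      omega
    · have hk' : k = m + 1 := by omega
      subst hk'
      have : (List.range m).countP (fun c => decide (c < m + 1)) = m := by
        rw [List.countP_eq_length.2]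
        · simp
        · intro a ha
          simp only [List.mem_range] at ha
          simp; omega
      rw [this]
      simp

theorem colS_certS (p n : ℕ) (f : ℕ → ℕ) (i : ℕ) (hi : i < n) (hf : f i < p + 2) :
    colS p (certS p n f) i = f i := by
  unfold colS
  rw [← countP_range_lt (p + 1) (f i) (by omega)]
  apply List.countP_congr
  intro c hc
  simp only [List.mem_range] at hc
  have hlt : i * (p + 1) + c < n * (p + 1) := by
    calc i * (p + 1) + c < i * (p + 1) + (p + 1) := by omega
      _ = (i + 1) * (p + 1) := by ring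
      _ ≤ n * (p + 1) := Nat.mul_le_mul_right _ hi
  rw [List.getD_eq_getElem?_getD]
  unfold certS
  rw [List.getElem?_ofFn]
  simp only [hlt, dif_pos, Option.getD_some]
  have e1 : (i * (p + 1) + c) % (p + 1) = c := by
    rw [Nat.mul_comm, Nat.mul_add_mod, Nat.mod_eq_of_lt hc]
  have e2 : (i * (p + 1) + c) / (p + 1) = i := by
    rw [Nat.mul_comm, Nat.mul_add_div (by omega), Nat.div_eq_of_lt hc, Nat.add_zero]
  rw [e1, e2]

/-- the verifier for a given number of vertices -/
def checkS (p : ℕ) (x w : List Bool) (n : ℕ) : Bool :=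
  (x.length == n + 1 + n * n) && (List.range n).all (fun i => x.getD i false) &&
  !(x.getD n false) &&
  (List.range n).all (fun u => (List.range n).all fun v => adjS x n u v == adjS x n v u) &&
  (List.range n).all (fun u => !(adjS x n u u)) &&
  (List.range n).all (fun u => ((List.range n).countP fun v => adjS x n u v) == 2 * p) &&
  (List.range n).all (fun v => (List.range (n ^ (p + 1))).all fun t =>
    !((List.finRange (p + 1)).all (fun i => adjS x n v (t / n ^ i.val % n)) &&
      (List.finRange (p + 1)).all (fun i => (List.finRange (p + 1)).all fun j =>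
        decide (i = j) || (!(t / n ^ i.val % n == t / n ^ j.val % n) &&
          !(adjS x n (t / n ^ i.val % n) (t / n ^ j.val % n)))))) &&
  (List.range n).all (fun u => (List.range n).all fun v =>
    !(adjS x n u v && colS p w u == colS p w v)) &&
  (List.range n).all (fun a => (List.range n).all fun b => (List.range n).all fun c =>
    (List.range n).all fun d =>
      !(!(a == c) && !(a == d) && !(b == d) && adjS x n a b && adjS x n b c && adjS x n c d &&
        colS p w a == colS p w c && colS p w b == colS p w d))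

/-- the verifier -/
def verS (p : ℕ) (y : List Bool × List Bool) : Bool :=
  (List.range (y.1.length + 1)).any fun n => checkS p y.1 y.2 n

/-- claws -/
theorem isEmpty_claw_iff {n : ℕ} (p : ℕ) (G : SimpleGraph (Fin n)) :
    IsEmpty (completeBipartiteGraph (Fin 1) (Fin (p + 1)) ↪g G) ↔
      ∀ (v : Fin n) (y : Fin (p + 1) → Fin n),
        ¬ ((∀ i, G.Adj v (y i)) ∧ ∀ i j, i ≠ j → y i ≠ y j ∧ ¬ G.Adj (y i) (y j)) := by
  constructor
  · rintro h v y ⟨h1, h2⟩
    refine h.false ⟨⟨Sum.elim (fun _ => v) y, ?_⟩, ?_⟩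
    · rintro (a | a) (b | b) hab
      · simp [Subsingleton.elim a b]
      · simp only [Sum.elim_inl, Sum.elim_inr] at hab
        exact absurd (h1 b) (by rw [hab]; exact G.irrefl)
      · simp only [Sum.elim_inl, Sum.elim_inr] at hab
        exact absurd (h1 a) (by rw [hab]; exact G.irrefl)
      · simp only [Sum.elim_inr] at hab
        by_contra hne
        exact (h2 a b (fun h => hne (by rw [h]))).1 hab
    · rintro (a | a) (b | b)
      · show G.Adj v v ↔ _
        simp
      · show G.Adj v (y b) ↔ _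
        simp [h1]
      · show G.Adj (y a) v ↔ _
        simp [(h1 a).symm]
      · show G.Adj (y a) (y b) ↔ _
        simp only [completeBipartiteGraph_adj, Sum.isLeft_inr, Bool.false_eq_true, false_and,
          and_false, or_self, iff_false]
        by_cases hab : a = b
        · rw [hab]; exact G.irrefl
        · exact (h2 a b hab).2
  · intro h
    refine ⟨fun e => h (e (.inl 0)) (fun i => e (.inr i)) ⟨fun i => ?_, fun i j hij => ⟨?_, ?_⟩⟩⟩
    · rw [e.map_adj_iff]; simp
    · intro h'
      exact hij (Sum.inr.inj (e.injective h'))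
    · rw [e.map_adj_iff]; simp

theorem ncard_eq {n : ℕ} (G : SimpleGraph (Fin n)) (u : Fin n) (a : ℕ → Bool)
    (h : ∀ v : Fin n, a v = true ↔ G.Adj u v) :
    (G.neighborSet u).ncard = (List.range n).countP fun v => a v := by
  classical
  have h1 : (List.range n).countP (fun v => a v) = ((Finset.range n).filter fun v => a v = true).card := by
    rw [List.countP_eq_length_filter]
    show _ = ((List.range n).filter fun v => decide (a v = true)).length
    congr 2
    funext v
    simp
  rw [h1, Set.ncard_eq_toFinset_card']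
  symm
  refine Finset.card_bij' (fun v hv => ⟨v, ?_⟩) (fun v _ => v.val) ?_ ?_ ?_ ?_
  · exact Finset.mem_range.1 (Finset.mem_filter.1 hv).1
  · intro v hv
    rw [Set.mem_toFinset]
    exact (h ⟨v, _⟩).1 (Finset.mem_filter.1 hv).2
  · intro v hv
    rw [Set.mem_toFinset] at hv
    exact Finset.mem_filter.2 ⟨Finset.mem_range.2 v.isLt, (h v).2 hv⟩
  · intro v hv; rfl
  · intro v hv; rfl

theorem checkS_iff (p : ℕ) (x w : List Bool) (n : ℕ) :
    checkS p x w n = true ↔ ∃ G : SimpleGraph (Fin n), x = encodeGraph G ∧ InClass p G ∧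
      IsStarColouring G (p + 2) fun i => ⟨colS p w i, colS_lt p w i⟩ := by
  unfold checkS
  simp only [Bool.and_eq_true, beq_iff_eq, List.all_eq_true, List.mem_range, Bool.not_eq_true',
    Bool.and_eq_false_iff, beq_eq_false_iff_ne]
  constructor
  · rintro ⟨⟨⟨⟨⟨⟨⟨⟨h1, h2⟩, h3⟩, h4⟩, h5⟩, h6⟩, h7⟩, h8⟩, h9⟩
    let G : SimpleGraph (Fin n) :=
      { Adj := fun u v => adjS x n u v = true
        symm := ⟨fun u v h => by rw [h4 v v.isLt u u.isLt]; exact h⟩
        loopless := ⟨fun u h => by rw [h5 u u.isLt] at h; simp at h⟩ }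
    have hG : ∀ u v : Fin n, G.Adj u v ↔ adjS x n u v = true := fun u v => Iff.rfl
    refine ⟨G, (eq_encode_iff G x).2 ⟨h1, h2, h3, fun u v => ?_⟩, ⟨?_, ?_⟩, ⟨?_, ?_⟩⟩
    · by_cases h : G.Adj u v
      · simp [h, (hG u v).1 h]
      · have : adjS x n u v = false := by
          rw [← Bool.not_eq_true]; exact h
        simp [h, this]
    · intro u
      rw [ncard_eq G u (adjS x n u) (fun v => Iff.rfl)]
      exact h6 u u.isLt
    · rw [isEmpty_claw_iff]
      rintro v y ⟨k1, k2⟩
      have h10 := h7 v v.isLt (finFunctionFinEquiv y).val (finFunctionFinEquiv y).isLt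
      have hy : ∀ i : Fin (p + 1), (finFunctionFinEquiv y).val / n ^ i.val % n = y i := by
        intro i
        have : finFunctionFinEquiv.symm (finFunctionFinEquiv y) i = y i := by
          rw [Equiv.symm_apply_apply]
        rw [← this]
        rfl
      rw [Bool.eq_false_iff] at h10
      rcases h10 with h10 | h10
      · apply h10
        rw [List.all_eq_true]
        intro i _
        rw [hy]
        exact k1 i
      · rw [Bool.eq_false_iff] at h10
        apply h10
        rw [List.all_eq_true]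
        intro i _
        rw [List.all_eq_true]
        intro j _
        by_cases hij : i = j
        · simp [hij]
        · simp only [hij, decide_false, Bool.false_or, Bool.and_eq_true, Bool.not_eq_true',
            beq_eq_false_iff_ne]
          rw [hy, hy]
          have := k2 i j hij
          exact ⟨fun h => this.1 (Fin.ext h), by rw [← Bool.not_eq_true]; exact this.2⟩
    · intro a b hab he
      have := h8 a a.isLt b b.isLt
      rw [(hG a b).1 hab] at this
      simp only [Bool.true_eq_false, false_or] at this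
      exact this (by simpa using he)
    · intro a b c d hac had hbd hab hbc hcd he
      have := h9 a a.isLt b b.isLt c c.isLt d d.isLt
      rw [(hG a b).1 hab, (hG b c).1 hbc, (hG c d).1 hcd] at this
      have e1 : colS p w a = colS p w c := by simpa using he.1
      have e2 : colS p w b = colS p w d := by simpa using he.2
      have n1 : (a : ℕ) ≠ c := fun h => hac (Fin.ext h)
      have n2 : (a : ℕ) ≠ d := fun h => had (Fin.ext h)
      have n3 : (b : ℕ) ≠ d := fun h => hbd (Fin.ext h)
      simp [e1, e2, n1, n2, n3] at this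
  · rintro ⟨G, hx, ⟨hr, hc⟩, hp, h4⟩
    obtain ⟨h1, h2, h3, h5⟩ := (eq_encode_iff G x).1 hx
    have hG : ∀ u v : Fin n, adjS x n u v = true ↔ G.Adj u v := fun u v => by
      rw [h5]; simp
    refine ⟨⟨⟨⟨⟨⟨⟨⟨h1, h2⟩, h3⟩, ?_⟩, ?_⟩, ?_⟩, ?_⟩, ?_⟩, ?_⟩
    · intro u hu v hv
      have a1 := h5 ⟨u, hu⟩ ⟨v, hv⟩
      have a2 := h5 ⟨v, hv⟩ ⟨u, hu⟩
      simp only at a1 a2
      rw [a1, a2]
      simp [G.adj_comm]
    · intro u hu
      have a1 := h5 ⟨u, hu⟩ ⟨u, hu⟩
      simp only at a1
      rw [a1]
      simp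
    · intro u hu
      rw [← hr ⟨u, hu⟩, ncard_eq G ⟨u, hu⟩ (adjS x n u) (fun v => hG ⟨u, hu⟩ v)]
    · intro v hv t ht
      rw [isEmpty_claw_iff] at hc
      have hcc := hc ⟨v, hv⟩ (finFunctionFinEquiv.symm ⟨t, ht⟩)
      have hy : ∀ i : Fin (p + 1), ((finFunctionFinEquiv.symm (⟨t, ht⟩ : Fin (n ^ (p + 1))) i : Fin n) : ℕ)
          = t / n ^ i.val % n := fun i => rfl
      by_contra hcon
      rw [not_or, Bool.eq_false_iff, not_not, Bool.eq_false_iff, not_not, List.all_eq_true,
        List.all_eq_true] at hcon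
      apply hcc
      refine ⟨fun i => ?_, fun i j hij => ?_⟩
      · rw [← hG, hy]
        exact hcon.1 i (List.mem_finRange i)
      · have := hcon.2 i (List.mem_finRange i)
        rw [List.all_eq_true] at this
        have := this j (List.mem_finRange j)
        simp only [hij, decide_false, Bool.false_or, Bool.and_eq_true, Bool.not_eq_true',
            beq_eq_false_iff_ne] at this
        refine ⟨fun h => this.1 ?_, ?_⟩
        · rw [← hy, ← hy, h]
        · rw [← hG, hy, hy, this.2]
          simp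
    · intro u hu v hv
      by_contra hcon
      rw [not_or, Bool.not_eq_false, not_not] at hcon
      exact hp ⟨u, hu⟩ ⟨v, hv⟩ ((hG _ _).1 hcon.1) (by simpa using hcon.2)
    · intro a ha b hb c hc' d hd
      by_contra hcon
      simp only [not_or, Bool.not_eq_false, not_not, ne_eq] at hcon
      obtain ⟨⟨⟨⟨⟨⟨⟨c1, c2⟩, c3⟩, c4⟩, c5⟩, c6⟩, c7⟩, c8⟩ := hcon
      refine h4 ⟨a, ha⟩ ⟨b, hb⟩ ⟨c, hc'⟩ ⟨d, hd⟩ ?_ ?_ ?_ ((hG _ _).1 c4) ((hG _ _).1 c5)
        ((hG _ _).1 c6) ⟨by simpa using c7, by simpa using c8⟩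
      · simpa using c1
      · simpa using c2
      · simpa using c3

/-! ### polynomial time -/

section

variable {α : Type} [Enc α]

theorem PT.allR {n : α → ℕ} {p : α → ℕ → Bool} (hn : PT n)
    (hp : PT (fun x : α × ℕ => p x.1 x.2)) : PT (fun a => (List.range (n a)).all fun i => p a i) :=
  PT.all (p := fun x => p x.1 x.2) hn hp

theorem PT.anyR {n : α → ℕ} {p : α → ℕ → Bool} (hn : PT n)
    (hp : PT (fun x : α × ℕ => p x.1 x.2)) : PT (fun a => (List.range (n a)).any fun i => p a i) :=
  PT.any (p := fun x => p x.1 x.2) hn hp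

theorem PT.countR {n : α → ℕ} {p : α → ℕ → Bool} (hn : PT n)
    (hp : PT (fun x : α × ℕ => p x.1 x.2)) :
    PT (fun a => (List.range (n a)).countP fun i => p a i) :=
  PT.count (p := fun x => p x.1 x.2) hn hp

theorem PT.powC {n : α → ℕ} (k : ℕ) (hn : PT n) : PT (fun a => n a ^ k) := by
  induction k with
  | zero => exact (PT.const 1).congr fun a => by simp
  | succ k ih => exact (PT.mul ih hn).congr fun a => by rw [pow_succ]

/-- weakening of the context -/
theorem PT.wk {β γ : Type} [Enc β] [Enc γ] {f : α → β} (hf : PT f) :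
    PT (fun x : α × γ => f x.1) := PT.comp hf PT.fst

theorem PT.adjS {x : α → List Bool} {n u v : α → ℕ} (hx : PT x) (hn : PT n) (hu : PT u)
    (hv : PT v) : PT (fun s => adjS (x s) (n s) (u s) (v s)) :=
  PT.getD hx (PT.add (PT.succ hn) (PT.add (PT.mul hu hn) hv))

theorem PT.colS {w : α → List Bool} {i : α → ℕ} (p : ℕ) (hw : PT w) (hi : PT i) :
    PT (fun s => colS p (w s) (i s)) :=
  PT.countR (PT.const (p + 1)) (PT.getD (PT.wk hw) (PT.add (PT.mul (PT.wk hi) (PT.const (p + 1)))
    PT.snd))

theorem PT.checkS (p : ℕ) {x w : α → List Bool} {n : α → ℕ} (hx : PT x) (hw : PT w) (hn : PT n) :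
    PT (fun s => checkS p (x s) (w s) (n s)) := by
  unfold Pool.Agent.MP_709f11_lc.checkS
  -- contexts with one to four numbers
  have x1 : PT (fun s : α × ℕ => x s.1) := PT.wk hx
  have x2 : PT (fun s : (α × ℕ) × ℕ => x s.1.1) := PT.wk x1
  have x3 : PT (fun s : ((α × ℕ) × ℕ) × ℕ => x s.1.1.1) := PT.wk x2
  have x4 : PT (fun s : (((α × ℕ) × ℕ) × ℕ) × ℕ => x s.1.1.1.1) := PT.wk x3
  have w1 : PT (fun s : α × ℕ => w s.1) := PT.wk hw
  have w2 : PT (fun s : (α × ℕ) × ℕ => w s.1.1) := PT.wk w1
  have w3 : PT (fun s : ((α × ℕ) × ℕ) × ℕ => w s.1.1.1) := PT.wk w2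
  have w4 : PT (fun s : (((α × ℕ) × ℕ) × ℕ) × ℕ => w s.1.1.1.1) := PT.wk w3
  have n1 : PT (fun s : α × ℕ => n s.1) := PT.wk hn
  have n2 : PT (fun s : (α × ℕ) × ℕ => n s.1.1) := PT.wk n1
  have n3 : PT (fun s : ((α × ℕ) × ℕ) × ℕ => n s.1.1.1) := PT.wk n2
  have n4 : PT (fun s : (((α × ℕ) × ℕ) × ℕ) × ℕ => n s.1.1.1.1) := PT.wk n3
  have i1 : PT (fun s : α × ℕ => s.2) := PT.snd
  have i2 : PT (fun s : (α × ℕ) × ℕ => s.1.2) := PT.wk i1
  have i3 : PT (fun s : ((α × ℕ) × ℕ) × ℕ => s.1.1.2) := PT.wk i2
  have i4 : PT (fun s : (((α × ℕ) × ℕ) × ℕ) × ℕ => s.1.1.1.2) := PT.wk i3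
  have j2 : PT (fun s : (α × ℕ) × ℕ => s.2) := PT.snd
  have j3 : PT (fun s : ((α × ℕ) × ℕ) × ℕ => s.1.2) := PT.wk j2
  have j4 : PT (fun s : (((α × ℕ) × ℕ) × ℕ) × ℕ => s.1.1.2) := PT.wk j3
  have k3 : PT (fun s : ((α × ℕ) × ℕ) × ℕ => s.2) := PT.snd
  have k4 : PT (fun s : (((α × ℕ) × ℕ) × ℕ) × ℕ => s.1.2) := PT.wk k3
  have l4 : PT (fun s : (((α × ℕ) × ℕ) × ℕ) × ℕ => s.2) := PT.snd
  have dig : ∀ i : Fin (p + 1), PT (fun s : (α × ℕ) × ℕ => s.2 / n s.1.1 ^ i.val % n s.1.1) :=
    fun i => PT.mod (PT.div j2 (PT.powC _ n2)) n2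
  refine PT.and (PT.and (PT.and (PT.and (PT.and (PT.and (PT.and (PT.and ?_ ?_) ?_) ?_) ?_) ?_)
    ?_) ?_) ?_
  · exact PT.beq (PT.length hx) (PT.add (PT.succ hn) (PT.mul hn hn))
  · exact PT.allR hn (PT.getD x1 i1)
  · exact PT.not (PT.getD hx hn)
  · exact PT.allR hn (PT.allR n1 (PT.beqBool (PT.adjS x2 n2 i2 j2) (PT.adjS x2 n2 j2 i2)))
  · exact PT.allR hn (PT.not (PT.adjS x1 n1 i1 i1))
  · exact PT.allR hn (PT.beq (PT.countR n1 (PT.adjS x2 n2 i2 j2)) (PT.const _))
  · refine PT.allR hn (PT.allR (PT.powC _ n1) (PT.not (PT.and ?_ ?_)))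
    · exact PT.allList _ fun i _ => PT.adjS x2 n2 i2 (dig i)
    · refine PT.allList _ fun i _ => PT.allList _ fun j _ => PT.or (PT.const _) ?_
      exact PT.and (PT.not (PT.beq (dig i) (dig j))) (PT.not (PT.adjS x2 n2 (dig i) (dig j)))
  · exact PT.allR hn (PT.allR n1 (PT.not (PT.and (PT.adjS x2 n2 i2 j2)
      (PT.beq (PT.colS p w2 i2) (PT.colS p w2 j2)))))
  · refine PT.allR hn (PT.allR n1 (PT.allR n2 (PT.allR n3 (PT.not ?_))))
    exact PT.and (PT.and (PT.and (PT.and (PT.and (PT.and (PT.and (PT.not (PT.beq i4 k4))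
      (PT.not (PT.beq i4 l4))) (PT.not (PT.beq j4 l4))) (PT.adjS x4 n4 i4 j4))
      (PT.adjS x4 n4 j4 k4)) (PT.adjS x4 n4 k4 l4))
      (PT.beq (PT.colS p w4 i4) (PT.colS p w4 k4))) (PT.beq (PT.colS p w4 j4) (PT.colS p w4 l4))

end

/-- the restricted problem is in NP -/
theorem inNP_starProblem (p : ℕ) : InNP (starProblem p) := by
  have hV : PT (verS p) := PT.anyR (PT.succ (PT.length PT.fst))
    (PT.checkS p (PT.fst' PT.fst) (PT.snd' PT.fst) PT.snd)
  refine ⟨verS p, Polynomial.C (p + 1) * Polynomial.X, PT.verifier hV, fun x => ?_⟩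
  constructor
  · rintro ⟨n, G, hx, hc, f, hf⟩
    have hlen := ((eq_encode_iff G x).1 hx).1
    refine ⟨certS p n (fun i => if h : i < n then (f ⟨i, h⟩).val else 0), ?_, ?_⟩
    · simp only [certS, List.length_ofFn, Polynomial.eval_mul, Polynomial.eval_C,
        Polynomial.eval_X]
      rw [Nat.mul_comm]
      exact Nat.mul_le_mul_left _ (by omega)
    · unfold verS
      rw [List.any_eq_true]
      refine ⟨n, ?_, ?_⟩
      · rw [List.mem_range]
        simp only
        omega
      · rw [checkS_iff]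
        refine ⟨G, hx, hc, ?_⟩
        have e : (fun i : Fin n => (⟨colS p (certS p n (fun i => if h : i < n then
            (f ⟨i, h⟩).val else 0)) i, colS_lt _ _ _⟩ : Fin (p + 2))) = f := by
          funext i
          apply Fin.ext
          simp only
          rw [colS_certS p n _ i i.isLt]
          · simp
          · simp only [i.isLt, dif_pos]
            exact (f i).isLt
        rw [e]
        exact hf
  · rintro ⟨w, -, hw⟩
    unfold verS at hw
    rw [List.any_eq_true] at hw
    obtain ⟨n, -, hn⟩ := hw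
    rw [checkS_iff] at hn
    obtain ⟨G, h1, h2, h3⟩ := hn
    exact ⟨n, G, h1, h2, _, h3⟩

end Pool.Agent.MP_709f11_lc
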