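import Pool.Agent.MP_709f11_lc.Graph

/-!
# Star colourings of the graph of a system of blocks
-/

namespace Pool.MP_709f11_lc

open Finset

section

variable {B Q R : Type} {p : ℕ}

/-- colourings of `B × Fin p` which are injective on the blocks of three partitions -/
def APC (q : B → Fin p → Q) (r : B → Fin p → R) (col : B → Fin p → Fin p) : Prop :=
  (∀ b c c', col b c = col b c' → c = c') ∧
  (∀ b c b' c', q b c = q b' c' → col b c = col b' c' → b = b' ∧ c = c') ∧
  (∀ b c b' c', r b c = r b' c' → col b c = col b' c' → b = b' ∧ c = c')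

theorem StarCol.comp_injective {V C D : Type} {G : SimpleGraph V} {f : V → C}
    (h : StarCol G f) (e : C → D) (he : Function.Injective e) : StarCol G (fun v => e (f v)) :=
  ⟨fun a b hab h' => h.proper a b hab (he h'),
   fun a b c d h1 h2 h3 h4 h5 h6 h7 => h.p4 a b c d h1 h2 h3 h4 h5 h6 ⟨he h7.1, he h7.2⟩⟩

variable [NeZero p] (q : B → Fin p → Q) (r : B → Fin p → R)

/-- colour -/
def fS (φ : B → Sym p → Sym p) : Vx B Q R p → Sym p
  | .inl (b, ⟨(i, _), _⟩) => φ b i
  | .inr (.inl _) => .inl false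
  | .inr (.inr _) => .inl true

/-- second label -/
def gS (φ : B → Sym p → Sym p) : Vx B Q R p → Sym p
  | .inl (b, ⟨(_, j), _⟩) => φ b j
  | .inr (.inl _) => .inl true
  | .inr (.inr _) => .inl false

theorem starCol_of_APC {col : B → Fin p → Fin p} (h : APC q r col) :
    ∃ f : Vx B Q R p → Sym p, StarCol (Gr q r) f := by
  let φ : B → Sym p → Sym p := fun b => Sum.map id (col b)
  have φinj : ∀ b i j, φ b i = φ b j → i = j := by
    rintro b (i | i) (j | j) hij
    · simpa [φ] using hij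
    · simp [φ] at hij
    · simp [φ] at hij
    · simp only [φ, Sum.map_inr, Sum.inr.injEq] at hij
      rw [h.1 b i j hij]
  have hf : ∀ b i j k, dist i j k → fS φ (P q r b i j k) = φ b i := by
    intro b i j k hd
    rcases hd.cases with hc | ⟨rfl, rfl, c, rfl⟩ | ⟨rfl, rfl, c, rfl⟩
    · rw [P_ok q r b k hc]; rfl
    · rw [P_ab]; rfl
    · rw [P_ba]; rfl
  have hg : ∀ b i j k, dist i j k → gS φ (P q r b i j k) = φ b j := by
    intro b i j k hd
    rcases hd.cases with hc | ⟨rfl, rfl, c, rfl⟩ | ⟨rfl, rfl, c, rfl⟩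
    · rw [P_ok q r b k hc]; rfl
    · rw [P_ab]; rfl
    · rw [P_ba]; rfl
  refine ⟨fS φ, starCol_of_labels _ _ (gS φ) ?_ ?_ ?_⟩
  · rintro v w (⟨b, i, j, k, hd, rfl, rfl⟩ | ⟨b, i, j, k, hd, rfl, rfl⟩) he
    · rw [hf _ _ _ _ hd, hf _ _ _ _ hd.rot] at he
      exact hd.1 (φinj _ _ _ he)
    · rw [hf _ _ _ _ hd, hf _ _ _ _ hd.rot] at he
      exact hd.1 (φinj _ _ _ he).symm
  · rintro v w (⟨b, i, j, k, hd, rfl, rfl⟩ | ⟨b, i, j, k, hd, rfl, rfl⟩) h1 h2
    · rw [hg _ _ _ _ hd.rot, hf _ _ _ _ hd] at h2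
      exact hd.2.2 (φinj _ _ _ h2).symm
    · rw [hg _ _ _ _ hd.rot, hf _ _ _ _ hd] at h1
      exact hd.2.2 (φinj _ _ _ h1).symm
  · rintro v w w' h1 h2 hne he
    by_contra hcon
    have k1 : Half q r w v := by
      rcases h1 with ⟨b, i, j, k, hd, rfl, rfl⟩ | h1
      · exfalso
        apply hcon
        rw [hg _ _ _ _ hd, hf _ _ _ _ hd.rot]
      · exact h1
    have k2 : Half q r w' v := by
      rcases h2 with ⟨b, i, j, k, hd, rfl, rfl⟩ | h2
      · exfalso
        apply hcon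
        rw [he, hg _ _ _ _ hd, hf _ _ _ _ hd.rot]
      · exact h2
    obtain ⟨b, i, j, k, hd, rfl, rfl⟩ := k1
    obtain ⟨b', i', j', k', hd', rfl, hv⟩ := k2
    obtain ⟨⟨rfl, rfl⟩, h3⟩ := P_eq q r hd.rot hd'.rot hv
    rw [hf _ _ _ _ hd, hf _ _ _ _ hd'] at he
    rcases h3 with ⟨-, rfl⟩ | ⟨rfl, rfl, c, c', rfl, rfl, hq⟩ | ⟨rfl, rfl, c, c', rfl, rfl, hq⟩
    · exact hne (by rw [φinj _ _ _ he])
    · simp only [φ, Sum.map_inr, Sum.inr.injEq] at he
      obtain ⟨rfl, rfl⟩ := h.2.1 b c b' c' hq he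
      exact hne rfl
    · simp only [φ, Sum.map_inr, Sum.inr.injEq] at he
      obtain ⟨rfl, rfl⟩ := h.2.2 b c b' c' hq he
      exact hne rfl

theorem exists_psi {C : Type} [Fintype C] (hC : Fintype.card C = p + 2) :
    ∃ ψ : Finset C → C → Fin p, ∀ S : Finset C, S.card = 2 → ∀ x y, x ∉ S → y ∉ S →
      ψ S x = ψ S y → x = y := by
  classical
  have : ∀ S : Finset C, ∃ ψ : C → Fin p, S.card = 2 → ∀ x y, x ∉ S → y ∉ S → ψ x = ψ y → x = y := by
    intro S
    by_cases hS : S.card = 2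
    · have hc : Sᶜ.card = p := by
        rw [card_compl, hS, hC]; rfl
      let e := (Sᶜ).equivFinOfCardEq hc
      refine ⟨fun x => if h : x ∈ Sᶜ then e ⟨x, h⟩ else 0, fun _ x y hx hy hxy => ?_⟩
      have hx' : x ∈ Sᶜ := mem_compl.2 hx
      have hy' : y ∈ Sᶜ := mem_compl.2 hy
      simp only [hx', hy', dif_pos] at hxy
      have := e.injective hxy
      simpa using this
    · exact ⟨fun _ => 0, fun h => absurd h hS⟩
  choose ψ hψ using this
  exact ⟨ψ, hψ⟩

theorem APC_of_starCol [Fintype B] [Fintype Q] [Fintype R] {C : Type} [Fintype C]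
    (eq : B × Fin p ≃ Q × Fin p) (er : B × Fin p ≃ R × Fin p) (hp : 3 ≤ p)
    (hC : Fintype.card C = p + 2) (f : Vx B Q R p → C) (hf : StarCol (Gq eq er) f) :
    ∃ col, APC (fun b c => (eq (b, c)).1) (fun b c => (er (b, c)).1) col := by
  classical
  obtain ⟨g, hgf, hgg, hgu⟩ := structure_lemma (Gq eq er) p (by omega) hC
    (fun v => (lineAt eq er v).card) f hf
  set q : B → Fin p → Q := fun b c => (eq (b, c)).1 with hq
  set r : B → Fin p → R := fun b c => (er (b, c)).1 with hr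
  -- triangles
  have tri : ∀ u v x, (Gq eq er).Adj u v → (Gq eq er).Adj v x → (Gq eq er).Adj x u →
      g u = f v → g v = f x ∧ g x = f u := by
    intro u v x huv hvx hxu hs
    have h1 : g x = f u := by
      by_contra h
      have := (hgg u x hxu.symm).2 h
      exact hf.proper _ _ hvx (by rw [← hs, this])
    refine ⟨?_, h1⟩
    by_contra h
    have := (hgg x v hvx.symm).2 h
    exact hf.proper _ _ huv (by rw [← this, h1])
  obtain ⟨c0⟩ : Nonempty C := Fintype.card_pos_iff.1 (by omega)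
  let F : B → Sym p → Sym p → C := fun b i j => if h : ok i j then f (gp b i j h) else c0
  let G : B → Sym p → Sym p → C := fun b i j => if h : ok i j then g (gp b i j h) else c0
  have hF : ∀ b i j (h : ok i j), F b i j = f (gp b i j h) := fun b i j h => by simp [F, h]
  have hG : ∀ b i j (h : ok i j), G b i j = g (gp b i j h) := fun b i j h => by simp [G, h]
  have adjg : ∀ b i j k (h1 : ok i j) (h2 : ok j k), i ≠ k →
      (Gq eq er).Adj (gp b i j h1) (gp b j k h2) := by
    intro b i j k h1 h2 h3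
    have := adj_P q r b (i := i) (j := j) (k := k) ⟨h1.1, h2.1, h3⟩
    rwa [P_ok q r b k h1, P_ok q r b i h2] at this
  have hlab : ∀ b, GadgetLab (F b) (G b) := by
    intro b
    refine ⟨?_, ?_, ?_⟩
    · intro i j k h1 h2 h3
      rw [hF b i j h1, hF b j k h2]
      exact hf.proper _ _ (adjg b i j k h1 h2 h3)
    · intro i j k h1 h2 h3
      rw [hF b i j h1, hF b j k h2, hG b i j h1, hG b j k h2]
      exact hgg _ _ (adjg b i j k h1 h2 h3)
    · intro a b' c d h1 h2 h3 h4 h5 h6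
      rw [hF b a b' h1, hF b c d h3] at h6
      rw [hF b a b' h1, hG b b' c h2]
      by_contra h
      have := hgu (gp b b' c h2) (gp b a b' h1) (gp b c d h3) (adjg b a b' c h1 h2 h4).symm
        (adjg b b' c d h2 h3 h5) h6 (fun h' => h h'.symm)
      exact h4 (gp_inj this).2.1
  choose φ hφ using fun b => rigid hp (hlab b)
  have okbc : ∀ (e : Bool) (c : Fin p), ok (.inl e : Sym p) (.inr c) := by simp [ok]
  have okcb : ∀ (e : Bool) (c : Fin p), ok (.inr c : Sym p) (.inl e) := by simp [ok]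
  -- the triangles with new points
  have dabc : ∀ c : Fin p, dist (.inl false : Sym p) (.inl true) (.inr c) := by simp [dist]
  have dbac : ∀ c : Fin p, dist (.inl true : Sym p) (.inl false) (.inr c) := by simp [dist]
  have tq : ∀ b c, (Gq eq er).Adj (gp b _ _ (okbc true c)) (gp b _ _ (okcb false c)) ∧
      (Gq eq er).Adj (gp b _ _ (okcb false c)) (Qp (q b c)) ∧
      (Gq eq er).Adj (Qp (q b c)) (gp b _ _ (okbc true c)) := by
    intro b c
    have h1 := adj_P q r b (dabc c)
    have h2 := adj_P q r b (dabc c).rot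
    have h3 := adj_P q r b (dabc c).rot.rot
    rw [P_ab] at h1 h3
    rw [P_ok q r b _ (okbc true c)] at h1 h2
    rw [P_ok q r b _ (okcb false c)] at h2 h3
    exact ⟨h2, h3, h1⟩
  have tr : ∀ b c, (Gq eq er).Adj (gp b _ _ (okbc false c)) (gp b _ _ (okcb true c)) ∧
      (Gq eq er).Adj (gp b _ _ (okcb true c)) (Rp (r b c)) ∧
      (Gq eq er).Adj (Rp (r b c)) (gp b _ _ (okbc false c)) := by
    intro b c
    have h1 := adj_P q r b (dbac c)
    have h2 := adj_P q r b (dbac c).rot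
    have h3 := adj_P q r b (dbac c).rot.rot
    rw [P_ba] at h1 h3
    rw [P_ok q r b _ (okbc false c)] at h1 h2
    rw [P_ok q r b _ (okcb true c)] at h2 h3
    exact ⟨h2, h3, h1⟩
  -- labels of new points
  have key : ∀ b c, ∀ (e : Bool) (x : Vx B Q R p),
      (Gq eq er).Adj (gp b _ _ (okbc (!e) c)) (gp b _ _ (okcb e c)) →
      (Gq eq er).Adj (gp b _ _ (okcb e c)) x → (Gq eq er).Adj x (gp b _ _ (okbc (!e) c)) →
      ((f x = φ b (.inl e) ∧ g x = φ b (.inl (!e))) ∨ (f x = φ b (.inl (!e)) ∧ g x = φ b (.inl e))) ∧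
      ∃ w, (w = gp b _ _ (okbc (!e) c) ∨ w = gp b _ _ (okcb e c)) ∧ (Gq eq er).Adj x w ∧
        f w = φ b (.inr c) := by
    intro b c e x h1 h2 h3
    rcases hφ b with hpos | hneg
    · have u1 := hpos _ _ (okbc (!e) c)
      have v1 := hpos _ _ (okcb e c)
      rw [hF b _ _ (okbc (!e) c), hG b _ _ (okbc (!e) c)] at u1
      rw [hF b _ _ (okcb e c), hG b _ _ (okcb e c)] at v1
      obtain ⟨t1, t2⟩ := tri _ _ x h1 h2 h3 (by rw [u1.2, v1.1])
      refine ⟨Or.inl ⟨by rw [← t1, v1.2], by rw [t2, u1.1]⟩, _, Or.inr rfl, h2.symm, v1.1⟩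
    · have u1 := hneg _ _ (okbc (!e) c)
      have v1 := hneg _ _ (okcb e c)
      rw [hF b _ _ (okbc (!e) c), hG b _ _ (okbc (!e) c)] at u1
      rw [hF b _ _ (okcb e c), hG b _ _ (okcb e c)] at v1
      obtain ⟨t1, t2⟩ := tri _ _ x h1.symm h3.symm h2.symm (by rw [v1.2, u1.1])
      refine ⟨Or.inr ⟨by rw [← t1, u1.2], by rw [t2, v1.1]⟩, _, Or.inl rfl, h3, u1.1⟩
  have keyq := fun b c => key b c false (Qp (q b c)) (tq b c).1 (tq b c).2.1 (tq b c).2.2
  have keyr := fun b c => key b c true (Rp (r b c)) (tr b c).1 (tr b c).2.1 (tr b c).2.2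
  -- φ injective
  have hφok : ∀ b i j, ok i j → φ b i ≠ φ b j := by
    intro b i j hij he
    rcases hφ b with hpos | hneg
    · have := hpos i j hij
      rw [hF b i j hij, hG b i j hij] at this
      exact hgf (gp b i j hij) (by rw [this.1, this.2, he])
    · have := hneg i j hij
      rw [hF b i j hij, hG b i j hij] at this
      exact hgf (gp b i j hij) (by rw [this.1, this.2, he])
  have hφ2 : ∀ b, φ b (.inl false) ≠ φ b (.inl true) := by
    intro b he
    rcases (keyq b 0).1 with ⟨h1, h2⟩ | ⟨h1, h2⟩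
    · exact hgf _ (by rw [h1, h2]; exact he.symm)
    · exact hgf _ (by rw [h1, h2]; exact he)
  obtain ⟨ψ, hψ⟩ := exists_psi (p := p) hC
  let S : B → Finset C := fun b => {φ b (.inl false), φ b (.inl true)}
  have hS2 : ∀ b, (S b).card = 2 := fun b => card_pair (hφ2 b)
  have hnS : ∀ b c, φ b (.inr c) ∉ S b := by
    intro b c h
    simp only [S, mem_insert, mem_singleton] at h
    rcases h with h | h
    · exact hφok b _ _ (okcb false c) h
    · exact hφok b _ _ (okcb true c) h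
  have hSq : ∀ b c, S b = {f (Qp (q b c)), g (Qp (q b c))} := by
    intro b c
    rcases (keyq b c).1 with ⟨h1, h2⟩ | ⟨h1, h2⟩
    · rw [h1, h2]; rfl
    · rw [h1, h2, pair_comm]; rfl
  have hSr : ∀ b c, S b = {f (Rp (r b c)), g (Rp (r b c))} := by
    intro b c
    rcases (keyr b c).1 with ⟨h1, h2⟩ | ⟨h1, h2⟩
    · rw [h1, h2, pair_comm]; rfl
    · rw [h1, h2]; rfl
  refine ⟨fun b c => ψ (S b) (φ b (.inr c)), ?_, ?_, ?_⟩
  · intro b c c' h
    have h1 := hψ (S b) (hS2 b) _ _ (hnS b c) (hnS b c') h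
    by_contra hne
    exact hφok b (.inr c) (.inr c') (ok_inr_left fun h' => hne (Sum.inr.inj h').symm) h1
  · intro b c b' c' hqq h
    have hSS : S b = S b' := by
      rw [hSq b c, hSq b' c']
      show ({f (Qp (q b c)), g (Qp (q b c))} : Finset C) = {f (Qp (q b' c')), g (Qp (q b' c'))}
      rw [show q b c = q b' c' from hqq]
    have h1 : φ b (.inr c) = φ b' (.inr c') := by
      simp only at h
      rw [← hSS] at h
      exact hψ (S b) (hS2 b) _ _ (hnS b c) (by rw [hSS]; exact hnS b' c') h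
    obtain ⟨-, w, hw, hw1, hw2⟩ := keyq b c
    obtain ⟨-, w', hw', hw1', hw2'⟩ := keyq b' c'
    have hqq' : q b' c' = q b c := hqq.symm
    rw [hqq'] at hw1'
    have hne : f w ≠ g (Qp (q b c)) := by
      rw [hw2]
      intro h'
      apply hnS b c
      rw [hSq b c, h']
      simp
    have hww := hgu (Qp (q b c)) w w' hw1 hw1' (by rw [hw2, hw2', h1]) hne
    rcases hw with rfl | rfl <;> rcases hw' with rfl | rfl
    · obtain ⟨e1, -, e2⟩ := gp_inj hww
      exact ⟨e1, Sum.inr.inj e2⟩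
    · obtain ⟨-, e2, -⟩ := gp_inj hww
      simp at e2
    · obtain ⟨-, e2, -⟩ := gp_inj hww
      simp at e2
    · obtain ⟨e1, e2, -⟩ := gp_inj hww
      exact ⟨e1, Sum.inr.inj e2⟩
  · intro b c b' c' hqq h
    have hSS : S b = S b' := by
      rw [hSr b c, hSr b' c']
      show ({f (Rp (r b c)), g (Rp (r b c))} : Finset C) = {f (Rp (r b' c')), g (Rp (r b' c'))}
      rw [show r b c = r b' c' from hqq]
    have h1 : φ b (.inr c) = φ b' (.inr c') := by
      simp only at h
      rw [← hSS] at h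
      exact hψ (S b) (hS2 b) _ _ (hnS b c) (by rw [hSS]; exact hnS b' c') h
    obtain ⟨-, w, hw, hw1, hw2⟩ := keyr b c
    obtain ⟨-, w', hw', hw1', hw2'⟩ := keyr b' c'
    have hqq' : r b' c' = r b c := hqq.symm
    rw [hqq'] at hw1'
    have hne : f w ≠ g (Rp (r b c)) := by
      rw [hw2]
      intro h'
      apply hnS b c
      rw [hSr b c, h']
      simp
    have hww := hgu (Rp (r b c)) w w' hw1 hw1' (by rw [hw2, hw2', h1]) hne
    rcases hw with rfl | rfl <;> rcases hw' with rfl | rfl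
    · obtain ⟨e1, -, e2⟩ := gp_inj hww
      exact ⟨e1, Sum.inr.inj e2⟩
    · obtain ⟨-, e2, -⟩ := gp_inj hww
      simp at e2
    · obtain ⟨-, e2, -⟩ := gp_inj hww
      simp at e2
    · obtain ⟨e1, e2, -⟩ := gp_inj hww
      exact ⟨e1, Sum.inr.inj e2⟩

end

end Pool.MP_709f11_lc
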