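import Pool.Agent.MP_709f11_lc.Correct

/-!
# Systems of blocks from graph colouring
-/

namespace Pool.MP_709f11_lc

section

variable {M m : ℕ} [NeZero M]

/-- kinds of class 1 and class 2 blocks -/
abbrev Bk (m : ℕ) := (Bool × Fin (m + 2)) ⊕ Fin m

/-- kinds of class 3 blocks -/
abbrev Rk (m : ℕ) := Fin (m + 2) ⊕ (Bool × Fin (m + 1))

/-- class 1 and class 2 blocks -/
abbrev Bt (M m : ℕ) := Fin M × Fin M × Bk m

/-- class 3 blocks -/
abbrev Rt (M m : ℕ) := Fin M × Fin M × Rk m

/-- class 2 block of an element -/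
def qf (b : Bt M m) (c : Fin (m + 2)) : Bt M m :=
  match b with
  | (v, w, .inl (e, t)) =>
    if c = 0 then (if e then (v, w, .inl (false, t)) else (v, w - 1, .inl (true, t)))
    else (v, w, .inl (e, t))
  | (v, w, .inr i) => (v, w, .inr i)

/-- inverse of `qf` at fixed position -/
def qi (b : Bt M m) (c : Fin (m + 2)) : Bt M m :=
  match b with
  | (v, w, .inl (e, t)) =>
    if c = 0 then (if e then (v, w + 1, .inl (false, t)) else (v, w, .inl (true, t)))
    else (v, w, .inl (e, t))
  | (v, w, .inr i) => (v, w, .inr i)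

theorem qi_qf (b : Bt M m) (c : Fin (m + 2)) : qi (qf b c) c = b := by
  obtain ⟨v, w, (⟨e, t⟩ | i)⟩ := b
  · by_cases hc : c = 0
    · cases e <;> simp [qi, qf, hc]
    · simp [qi, qf, hc]
  · rfl

theorem qf_qi (b : Bt M m) (c : Fin (m + 2)) : qf (qi b c) c = b := by
  obtain ⟨v, w, (⟨e, t⟩ | i)⟩ := b
  · by_cases hc : c = 0
    · cases e <;> simp [qi, qf, hc]
    · simp [qi, qf, hc]
  · rfl

/-- class 2 partition -/
def eqE (M m : ℕ) [NeZero M] : Bt M m × Fin (m + 2) ≃ Bt M m × Fin (m + 2) where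
  toFun x := (qf x.1 x.2, x.2)
  invFun x := (qi x.1 x.2, x.2)
  left_inv := by rintro ⟨b, c⟩; simp [qi_qf]
  right_inv := by rintro ⟨b, c⟩; simp [qf_qi]

omit [NeZero M] in
/-- exchange of rows and columns -/
def rc (a : Bool) (x : Fin (m + 2) × Fin (m + 2)) : Fin (m + 2) × Fin (m + 2) :=
  if a then (x.2, x.1) else x

variable (A : Fin M → Fin M → Bool)

/-- class 3 block and position -/
def rf : Bt M m × Fin (m + 2) → Rt M m × Fin (m + 2)
  | ((v, w, .inl (e, t)), ⟨0, _⟩) =>
    if e then ((w, v, .inl (rc (A w v) (1, t)).1), (rc (A w v) (1, t)).2)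
    else ((v, w, .inl (rc (A v w) (0, t)).1), (rc (A v w) (0, t)).2)
  | ((v, w, .inl (e, t)), ⟨c + 1, h⟩) => ((v, w, .inr (e, ⟨c, by omega⟩)), t)
  | ((v, w, .inr i), t) =>
    ((v, w, .inl (rc (A v w) (i.succ.succ, t)).1), (rc (A v w) (i.succ.succ, t)).2)

/-- the element in a given row and column -/
def rowEl (v w : Fin M) : Fin (m + 2) → Fin (m + 2) → Bt M m × Fin (m + 2)
  | ⟨0, _⟩, t => ((v, w, .inl (false, t)), 0)
  | ⟨1, _⟩, t => ((w, v, .inl (true, t)), 0)
  | ⟨i + 2, h⟩, t => ((v, w, .inr ⟨i, by omega⟩), t)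

/-- inverse of `rf` -/
def ri : Rt M m × Fin (m + 2) → Bt M m × Fin (m + 2)
  | ((v, w, .inl ρ), k) => rowEl v w (rc (A v w) (ρ, k)).1 (rc (A v w) (ρ, k)).2
  | ((v, w, .inr (e, c)), t) => ((v, w, .inl (e, t)), c.succ)

omit [NeZero M] in
theorem rc_rc (a : Bool) (x : Fin (m + 2) × Fin (m + 2)) : rc a (rc a x) = x := by
  cases a <;> simp [rc]

omit [NeZero M] in
theorem rf_rowEl (v w : Fin M) (i t : Fin (m + 2)) : rf A (rowEl v w i t) =
    ((v, w, .inl (rc (A v w) (i, t)).1), (rc (A v w) (i, t)).2) := by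
  obtain ⟨_ | _ | i, hi⟩ := i
  · rfl
  · rfl
  · rfl

omit [NeZero M] in
theorem ri_rf (x : Bt M m × Fin (m + 2)) : ri A (rf A x) = x := by
  have key : ∀ v w i t, ri A (rf A (rowEl (m := m) v w i t)) = rowEl v w i t := by
    intro v w i t
    rw [rf_rowEl]
    show rowEl v w (rc (A v w) (rc (A v w) (i, t))).1 (rc (A v w) (rc (A v w) (i, t))).2 = _
    rw [rc_rc]
  obtain ⟨⟨v, w, (⟨e, t⟩ | i)⟩, c⟩ := x
  · obtain ⟨_ | c, hc⟩ := c
    · cases e
      · exact key v w ⟨0, hc⟩ t
      · exact key w v ⟨1, by omega⟩ t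
    · rfl
  · exact key v w ⟨i.1 + 2, by omega⟩ c

omit [NeZero M] in
theorem rf_ri (x : Rt M m × Fin (m + 2)) : rf A (ri A x) = x := by
  obtain ⟨⟨v, w, (ρ | ⟨e, c⟩)⟩, k⟩ := x
  · show rf A (rowEl v w (rc (A v w) (ρ, k)).1 (rc (A v w) (ρ, k)).2) = _
    rw [rf_rowEl]
    show (((v, w, .inl (rc (A v w) (rc (A v w) (ρ, k))).1) : Rt M m),
      (rc (A v w) (rc (A v w) (ρ, k))).2) = _
    rw [rc_rc]
  · rfl

/-- class 3 partition -/
def erE : Bt M m × Fin (m + 2) ≃ Rt M m × Fin (m + 2) where
  toFun := rf A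
  invFun := ri A
  left_inv := ri_rf A
  right_inv := rf_ri A

/-- a permutation with `0 ↦ a`, `1 ↦ b` -/
def θ (a b : Fin (m + 2)) (i : Fin (m + 2)) : Fin (m + 2) :=
  Equiv.swap (Equiv.swap 0 a 1) b (Equiv.swap 0 a i)

omit [NeZero M] in
theorem θ_inj (a b : Fin (m + 2)) : Function.Injective (θ a b) :=
  (Equiv.injective _).comp (Equiv.injective _)

theorem θ_zero {a b : Fin (m + 2)} (h : a ≠ b) : θ a b 0 = a := by
  unfold θ
  rw [Equiv.swap_apply_left]
  refine Equiv.swap_apply_of_ne_of_ne ?_ h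
  intro h'
  have h2 : Equiv.swap 0 a 0 = a := Equiv.swap_apply_left _ _
  have := (Equiv.swap 0 a).injective (h2.trans h')
  simp at this

theorem θ_one {a b : Fin (m + 2)} : θ a b 1 = b := by
  unfold θ
  rw [Equiv.swap_apply_left]

theorem APC_iff :
    (∃ col, APC (fun b c => (eqE M m (b, c)).1) (fun b c => (erE A (b, c)).1) col) ↔
      ∃ h : Fin M → Fin (m + 2), ∀ v w, A v w = true → h v ≠ h w := by
  constructor
  · rintro ⟨col, h1, h2, h3⟩
    -- chain property
    have chain : ∀ x : Bt M m, col (qi x 0) 0 = col x 0 := by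
      intro x
      have hsurj : Function.Surjective (col x) :=
        Finite.surjective_of_injective fun c c' h => h1 x c c' h
      obtain ⟨c, hc⟩ := hsurj (col (qi x 0) 0)
      by_cases hc0 : c = 0
      · rw [← hc, hc0]
      · exfalso
        obtain ⟨v, w, (⟨e, t⟩ | i)⟩ := x
        · have e1 : qf (qi (v, w, .inl (e, t)) (0 : Fin (m + 2))) 0 = (v, w, .inl (e, t)) := qf_qi _ _
          have e2 : qf (v, w, .inl (e, t)) c = (v, w, .inl (e, t)) := by simp [qf, hc0]
          exact hc0 (h2 (v, w, .inl (e, t)) c (qi (v, w, .inl (e, t)) 0) 0 (by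
            show qf (v, w, .inl (e, t)) c = qf (qi (v, w, .inl (e, t)) 0) 0
            rw [e1, e2]) hc).2
        · exact hc0 (h1 _ _ _ hc)
    have c1 : ∀ v w t, col (v, w, .inl (true, t)) 0 = col (v, w, .inl (false, t)) 0 := by
      intro v w t
      have := chain (v, w, .inl (false, t))
      simpa [qi] using this
    have c2 : ∀ v w t, col (v, w + 1, .inl (false, t)) 0 = col (v, w, .inl (false, t)) 0 := by
      intro v w t
      have := chain (v, w, .inl (true, t))
      rw [← c1 v w]
      simpa [qi] using this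
    obtain ⟨N, rfl⟩ : ∃ N, M = N + 1 := ⟨M - 1, by have := NeZero.pos M; omega⟩
    have c3 : ∀ v w t, col (v, w, .inl (false, t)) 0 = col (v, 0, .inl (false, t)) 0 := by
      intro v w t
      induction w using Fin.induction with
      | zero => rfl
      | succ i ih =>
        rw [← ih, ← c2 v i.castSucc t]
        simp
    refine ⟨fun v => col (v, 0, .inl (false, 0)) 0, fun v w hvw he => ?_⟩
    have e1 : col (v, w, .inl (false, 0)) 0 = col (w, v, .inl (true, 0)) 0 := by
      rw [c1, c3, c3 w]; exact he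
    have := h3 _ _ _ _ (by
      show (rf A _).1 = (rf A _).1
      have k1 : rf A ((v, w, .inl (false, 0)), (0 : Fin (m + 2))) =
        ((v, w, .inl (rc (A v w) (0, 0)).1), (rc (A v w) ((0 : Fin (m + 2)), 0)).2) := rfl
      have k2 : rf A ((w, v, .inl (true, 0)), (0 : Fin (m + 2))) =
        ((v, w, .inl (rc (A v w) (1, 0)).1), (rc (A v w) ((1 : Fin (m + 2)), 0)).2) := rfl
      rw [k1, k2, hvw]
      rfl) e1
    simp at this
  · rintro ⟨h, hh⟩
    let col : Bt M m → Fin (m + 2) → Fin (m + 2) := fun b c =>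
      match b with
      | (v, _, .inl (_, t)) => h v + t + c
      | (v, w, .inr i) => θ (h v) (h w) i.succ.succ + c
    have hcolq : ∀ b c c', col (qf b c) c' = col b c' := by
      rintro ⟨v, w, (⟨e, t⟩ | i)⟩ c c'
      · by_cases hc : c = 0
        · cases e <;> simp [qf, hc, col]
        · simp [qf, hc]
      · rfl
    have hinj : ∀ b c c', col b c = col b c' → c = c' := by
      rintro ⟨v, w, (⟨e, t⟩ | i)⟩ c c' hcc
      · simpa [col] using hcc
      · simpa [col] using hcc
    let τ : Fin M → Fin M → Fin (m + 2) → Fin (m + 2) := fun v w i =>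
      match i with
      | ⟨0, _⟩ => h v
      | ⟨1, _⟩ => h w
      | ⟨i + 2, hi⟩ => θ (h v) (h w) ⟨i + 2, hi⟩
    have hcolr : ∀ v w i t, col (rowEl v w i t).1 (rowEl v w i t).2 = τ v w i + t := by
      intro v w i t
      obtain ⟨_ | _ | i, hi⟩ := i
      · show h v + t + 0 = h v + t
        rw [add_zero]
      · show h w + t + 0 = h w + t
        rw [add_zero]
      · rfl
    refine ⟨col, hinj, ?_, ?_⟩
    · intro b c b' c' hq hc
      have hq' : qf b c = qf b' c' := hq
      have h1 : c = c' := by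
        apply hinj (qf b c)
        rw [hcolq, hc, ← hcolq b' c' c', hq']
      subst h1
      refine ⟨?_, rfl⟩
      rw [← qi_qf b c, hq', qi_qf]
    · -- class 3
      have key : ∀ (x : Rt M m) (k k' : Fin (m + 2)),
          col (ri A (x, k)).1 (ri A (x, k)).2 = col (ri A (x, k')).1 (ri A (x, k')).2 → k = k' := by
        rintro ⟨v, w, (ρ | ⟨e, c⟩)⟩ k k' hk
        · have hval : ∀ k : Fin (m + 2), col (ri A ((v, w, .inl ρ), k)).1
                (ri A ((v, w, .inl ρ), k)).2 =
                  τ v w (rc (A v w) (ρ, k)).1 + (rc (A v w) (ρ, k)).2 := fun k => hcolr _ _ _ _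
          rw [hval, hval] at hk
          cases hA : A v w
          · simp only [hA, rc, Bool.false_eq_true, if_false] at hk
            exact add_left_cancel hk
          · have hne := hh v w hA
            simp only [hA, rc, if_true] at hk
            have h1 : ∀ k, τ v w k = θ (h v) (h w) k := by
              intro k
              obtain ⟨_ | _ | i, hi⟩ := k
              · exact (θ_zero hne).symm
              · exact θ_one.symm
              · rfl
            rw [h1, h1] at hk
            exact θ_inj _ _ (add_right_cancel hk)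
        · simpa [ri, col] using hk
      intro b c b' c' hr hc
      have e1 : (b, c) = ri A ((rf A (b, c)).1, (rf A (b, c)).2) := (ri_rf A (b, c)).symm
      have e2 : (b', c') = ri A ((rf A (b, c)).1, (rf A (b', c')).2) := by
        have : (rf A (b, c)).1 = (rf A (b', c')).1 := hr
        rw [this]
        exact (ri_rf A (b', c')).symm
      have hk := key (rf A (b, c)).1 (rf A (b, c)).2 (rf A (b', c')).2 (by
        rw [← e1, ← e2]; exact hc)
      have : (b, c) = (b', c') := by
        rw [e1, e2, hk]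
      exact Prod.mk.injEq _ _ _ _ ▸ this

end

end Pool.MP_709f11_lc
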