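import Mathlib

/-!
# Rigidity of the labels of the gadget
-/

namespace Pool.MP_709f11_lc

/-- the symbols: two special ones and `p` ordinary ones -/
abbrev Sym (p : ℕ) := Bool ⊕ Fin p

/-- the arcs which are vertices of the gadget -/
def ok {p : ℕ} (i j : Sym p) : Prop := i ≠ j ∧ ¬ (i.isLeft = true ∧ j.isLeft = true)

instance {p : ℕ} (i j : Sym p) : Decidable (ok i j) := by unfold ok; infer_instance

theorem ok_inr_left {p : ℕ} {x : Fin p} {d : Sym p} (h : d ≠ .inr x) : ok (.inr x) d :=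
  ⟨fun h' => h h'.symm, by simp⟩

theorem ok_inr_right {p : ℕ} {x : Fin p} {d : Sym p} (h : d ≠ .inr x) : ok d (.inr x) :=
  ⟨h, by simp⟩

theorem exists_ord {p : ℕ} (S : Finset (Fin p)) (h : S.card < p) : ∃ x, x ∉ S := by
  by_contra hcon
  push Not at hcon
  have h1 : (Finset.univ : Finset (Fin p)) ⊆ S := fun x _ => hcon x
  have := Finset.card_le_card h1
  simp at this
  omega

theorem exists_sym {p : ℕ} (S : Finset (Sym p)) (h : S.card < p + 2) : ∃ x, x ∉ S := by
  by_contra hcon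
  push Not at hcon
  have h1 : (Finset.univ : Finset (Sym p)) ⊆ S := fun x _ => hcon x
  have := Finset.card_le_card h1
  simp at this
  omega

section

variable {p : ℕ} {C : Type}

/-- what the labels of a star colouring satisfy on the gadget -/
structure GadgetLab (F G : Sym p → Sym p → C) : Prop where
  hF : ∀ i j k, ok i j → ok j k → i ≠ k → F i j ≠ F j k
  hG : ∀ i j k, ok i j → ok j k → i ≠ k → (G i j = F j k ↔ ¬ G j k = F i j)
  hU : ∀ a b c d, ok a b → ok b c → ok c d → a ≠ c → b ≠ d → F a b = F c d → G b c = F a b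

theorem pos_lemma (hp : 3 ≤ p) (F G : Sym p → Sym p → C)
    (h : ∀ x y : Fin p, x ≠ y → ∀ d : Sym p, d ≠ .inr x → d ≠ .inr y →
      G (.inr x) (.inr y) = F (.inr y) d ∧ G (.inr y) d = F d (.inr x) ∧
      G d (.inr x) = F (.inr x) (.inr y)) :
    ∃ φ : Sym p → C, ∀ i j, ok i j → F i j = φ i ∧ G i j = φ j := by
  obtain ⟨o, -⟩ := exists_ord (p := p) ∅ (by simp; omega)
  let φ : Sym p → C := fun s => match s with
    | .inl e => F (.inl e) (.inr o)
    | .inr y => F (.inr y) (.inl false)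
  -- an ordinary symbol different from `y` and `d`
  have ex : ∀ (y : Fin p) (d : Sym p), ∃ x : Fin p, x ≠ y ∧ d ≠ .inr x := by
    intro y d
    rcases d with e | z
    · obtain ⟨x, hx⟩ := exists_ord ({y} : Finset (Fin p)) (by simp; omega)
      exact ⟨x, by simpa using hx, by simp⟩
    · obtain ⟨x, hx⟩ := exists_ord ({y, z} : Finset (Fin p))
        (lt_of_le_of_lt Finset.card_le_two (by omega))
      simp only [Finset.mem_insert, Finset.mem_singleton, not_or] at hx
      exact ⟨x, hx.1, fun h => hx.2 (Sum.inr.inj h).symm⟩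
  have A1 : ∀ x y : Fin p, x ≠ y → G (.inr x) (.inr y) = φ (.inr y) := fun x y hxy =>
    (h x y hxy (.inl false) (by simp) (by simp)).1
  have A2 : ∀ (y : Fin p) (d : Sym p), d ≠ .inr y → F (.inr y) d = φ (.inr y) := by
    intro y d hd
    obtain ⟨x, hxy, hx⟩ := ex y d
    rw [← (h x y hxy d hx hd).1, A1 x y hxy]
  have A3 : ∀ (y : Fin p) (d : Sym p), d ≠ .inr y → G d (.inr y) = φ (.inr y) := by
    intro y d hd
    obtain ⟨z, hzy, hz⟩ := ex y d
    rw [(h y z hzy.symm d hd hz).2.2, A2 y _ (fun h => hzy (Sum.inr.inj h))]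
  have A4 : ∀ (e : Bool) (x : Fin p), F (.inl e) (.inr x) = φ (.inl e) := by
    intro e x
    obtain ⟨y, hy⟩ := exists_ord ({x, o} : Finset (Fin p))
        (lt_of_le_of_lt Finset.card_le_two (by omega))
    simp only [Finset.mem_insert, Finset.mem_singleton, not_or] at hy
    have h1 := (h x y (Ne.symm hy.1) (.inl e) (by simp) (by simp)).2.1
    have h2 := (h o y (Ne.symm hy.2) (.inl e) (by simp) (by simp)).2.1
    rw [← h1, h2]
  have A5 : ∀ (e : Bool) (y : Fin p), G (.inr y) (.inl e) = φ (.inl e) := by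
    intro e y
    obtain ⟨x, hxy, -⟩ := ex y (.inl e)
    rw [(h x y hxy (.inl e) (by simp) (by simp)).2.1, A4]
  refine ⟨φ, ?_⟩
  rintro (e | x) (e' | y) hij
  · exact absurd hij (by simp [ok])
  · exact ⟨A4 e y, A3 y _ (by simp)⟩
  · exact ⟨A2 x _ (by simp), A5 e' x⟩
  · have hxy : x ≠ y := fun h => hij.1 (by rw [h])
    exact ⟨A2 x _ (fun h => hxy (Sum.inr.inj h).symm), A3 y _ (fun h => hxy (Sum.inr.inj h))⟩

theorem rigid (hp : 3 ≤ p) {F G : Sym p → Sym p → C} (h : GadgetLab F G) :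
    ∃ φ : Sym p → C, (∀ i j, ok i j → F i j = φ i ∧ G i j = φ j) ∨
      (∀ i j, ok i j → F i j = φ j ∧ G i j = φ i) := by
  have rot : ∀ i j k, ok i j → ok j k → ok k i → G i j = F j k → G j k = F k i := by
    intro i j k h1 h2 h3 hs
    by_contra hcon
    have e1 : G k i = F j k := by
      by_contra h'
      exact hcon ((h.hG j k i h2 h3 h1.1.symm).2 h')
    have e2 : ¬ G k i = F i j := by
      rw [e1]; exact (h.hF i j k h1 h2 (Ne.symm h3.1)).symm
    have e3 : G i j = F k i := by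
      by_contra h'
      exact e2 ((h.hG k i j h3 h1 h2.1.symm).2 h')
    exact h.hF j k i h2 h3 h1.1.symm (by rw [← hs, e3])
  have four : ∀ a b c d, ok a b → ok b c → ok c d → ok d a → a ≠ c → b ≠ d →
      G a b = F b c → G c d = F d a := by
    intro a b c d h1 h2 h3 h4 hac hbd hs
    by_contra hcon
    have e1 : G d a = F c d := by
      by_contra h'
      exact hcon ((h.hG c d a h3 h4 (Ne.symm hac)).2 h')
    by_cases hc : G d a = F a b
    · have e2 : G b c = F a b := h.hU a b c d h1 h2 h3 hac hbd (by rw [← hc, e1])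
      exact (h.hG a b c h1 h2 hac).1 hs e2
    · have e2 : G a b = F d a := by
        by_contra h'
        exact hc ((h.hG d a b h4 h1 (Ne.symm hbd)).2 h')
      have e3 : F b c = F d a := by rw [← hs, e2]
      exact hcon (by rw [h.hU b c d a h2 h3 h4 hbd (Ne.symm hac) e3, e3])
  -- abbreviations for ordinary symbols
  have W0 : ∀ (x y : Fin p), x ≠ y → ∀ d b : Sym p, d ≠ .inr x → d ≠ .inr y → b ≠ .inr x →
      b ≠ .inr y → b ≠ d → G (.inr x) (.inr y) = F (.inr y) d → G (.inr y) (.inr x) = F (.inr x) b := by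
    intro x y hxy d b hdx hdy hbx hby hbd hs
    have hxy' : (Sum.inr x : Sym p) ≠ .inr y := fun h => hxy (Sum.inr.inj h)
    have oxy : ok (.inr x : Sym p) (.inr y) := ok_inr_left (Ne.symm hxy')
    have oyx : ok (.inr y : Sym p) (.inr x) := ok_inr_left hxy'
    have s1 := rot _ _ _ oxy (ok_inr_left hdy) (ok_inr_right hdx) hs
    have s2 := four (.inr y) d (.inr x) b (ok_inr_left hdy) (ok_inr_right hdx) (ok_inr_left hbx)
      (ok_inr_right hby) (Ne.symm hxy') (Ne.symm hbd) s1
    have s3 := rot _ _ _ (ok_inr_left hbx) (ok_inr_right hby) oyx s2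
    exact rot _ _ _ (ok_inr_right hby) oyx (ok_inr_left hbx) s3
  have exb : ∀ (x y : Fin p) (d d' : Sym p), ∃ b : Sym p, b ≠ .inr x ∧ b ≠ .inr y ∧ b ≠ d ∧
      b ≠ d' := by
    intro x y d d'
    obtain ⟨b, hb⟩ := exists_sym ({.inr x, .inr y, d, d'} : Finset (Sym p))
      (lt_of_le_of_lt Finset.card_le_four (by omega))
    simp only [Finset.mem_insert, Finset.mem_singleton, not_or] at hb
    exact ⟨b, hb.1, hb.2.1, hb.2.2.1, hb.2.2.2⟩
  have W1 : ∀ (x y : Fin p), x ≠ y → ∀ d d' : Sym p, d ≠ .inr x → d ≠ .inr y → d' ≠ .inr x →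
      d' ≠ .inr y → G (.inr x) (.inr y) = F (.inr y) d → G (.inr x) (.inr y) = F (.inr y) d' := by
    intro x y hxy d d' h1 h2 h3 h4 hs
    obtain ⟨b, b1, b2, b3, b4⟩ := exb x y d d'
    exact W0 y x hxy.symm b d' b2 b1 h4 h3 (Ne.symm b4) (W0 x y hxy d b h1 h2 b1 b2 b3 hs)
  let T : Fin p → Fin p → Prop := fun x y => G (.inr x) (.inr y) = F (.inr y) (.inl false)
  have Tsymm : ∀ x y, x ≠ y → T x y → T y x := by
    intro x y hxy hT
    obtain ⟨b, b1, b2, b3, -⟩ := exb x y (.inl false) (.inl false)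
    exact W1 y x hxy.symm b (.inl false) b2 b1 (by simp) (by simp)
      (W0 x y hxy (.inl false) b (by simp) (by simp) b1 b2 b3 hT)
  have Tnext : ∀ x y z, x ≠ y → y ≠ z → x ≠ z → T x y → T y z := by
    intro x y z hxy hyz hxz hT
    have i1 : (Sum.inr x : Sym p) ≠ .inr y := fun h => hxy (Sum.inr.inj h)
    have i2 : (Sum.inr y : Sym p) ≠ .inr z := fun h => hyz (Sum.inr.inj h)
    have i3 : (Sum.inr x : Sym p) ≠ .inr z := fun h => hxz (Sum.inr.inj h)
    have s1 := W1 x y hxy (.inl false) (.inr z) (by simp) (by simp) (Ne.symm i3) (Ne.symm i2) hT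
    have s2 := rot _ _ _ (ok_inr_left (Ne.symm i1)) (ok_inr_left (Ne.symm i2)) (ok_inr_left i3) s1
    exact W1 y z hyz (.inr x) (.inl false) i1 i3 (by simp) (by simp) s2
  have Ta : ∀ x y z, x ≠ y → x ≠ z → T x y → T x z := by
    intro x y z hxy hxz hT
    by_cases hyz : y = z
    · rw [← hyz]; exact hT
    · exact Tnext y x z hxy.symm hxz hyz (Tsymm x y hxy hT)
  have Tall : ∀ x y u v, x ≠ y → u ≠ v → T x y → T u v := by
    intro x y u v hxy huv hT
    by_cases hux : x = u
    · subst hux; exact Ta x y v hxy huv hT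
    · exact Ta u x v (Ne.symm hux) huv (Tsymm x u hux (Ta x y u hxy hux hT))
  by_cases hpos : ∃ x y, x ≠ y ∧ T x y
  · obtain ⟨x0, y0, h0, hT0⟩ := hpos
    obtain ⟨φ, hφ⟩ := pos_lemma hp F G (by
      intro x y hxy d hdx hdy
      have hT := Tall x0 y0 x y h0 hxy hT0
      have hxy' : (Sum.inr x : Sym p) ≠ .inr y := fun h => hxy (Sum.inr.inj h)
      have s1 := W1 x y hxy (.inl false) d (by simp) (by simp) hdx hdy hT
      have s2 := rot _ _ _ (ok_inr_left (Ne.symm hxy')) (ok_inr_left hdy) (ok_inr_right hdx) s1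
      have s3 := rot _ _ _ (ok_inr_left hdy) (ok_inr_right hdx) (ok_inr_left (Ne.symm hxy')) s2
      exact ⟨s1, s2, s3⟩)
    exact ⟨φ, Or.inl hφ⟩
  · have hneg : ∀ x y, x ≠ y → ¬ T x y := fun x y hxy hT => hpos ⟨x, y, hxy, hT⟩
    have hN : ∀ x y : Fin p, x ≠ y → ∀ d : Sym p, d ≠ .inr x → d ≠ .inr y →
        G (.inr y) d = F (.inr x) (.inr y) ∧ G d (.inr x) = F (.inr y) d ∧
        G (.inr x) (.inr y) = F d (.inr x) := by
      intro x y hxy d hdx hdy
      have hxy' : (Sum.inr x : Sym p) ≠ .inr y := fun h => hxy (Sum.inr.inj h)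
      have oxy : ok (.inr x : Sym p) (.inr y) := ok_inr_left (Ne.symm hxy')
      have oyd : ok (.inr y : Sym p) d := ok_inr_left hdy
      have odx : ok d (.inr x : Sym p) := ok_inr_right hdx
      have n1 : ¬ G (.inr x) (.inr y) = F (.inr y) d := fun hs =>
        hneg x y hxy (W1 x y hxy d (.inl false) hdx hdy (by simp) (by simp) hs)
      have n3 : ¬ G d (.inr x) = F (.inr x) (.inr y) := fun hs => n1 (rot _ _ _ odx oxy oyd hs)
      have n2 : ¬ G (.inr y) d = F d (.inr x) := fun hs => n3 (rot _ _ _ oyd odx oxy hs)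
      refine ⟨?_, ?_, ?_⟩
      · by_contra h'
        exact n1 ((h.hG _ _ _ oxy oyd (Ne.symm hdx)).2 h')
      · by_contra h'
        exact n2 ((h.hG _ _ _ oyd odx (Ne.symm hxy')).2 h')
      · by_contra h'
        exact n3 ((h.hG _ _ _ odx oxy hdy).2 h')
    obtain ⟨φ, hφ⟩ := pos_lemma hp (fun i j => F j i) (fun i j => G j i) (by
      intro x y hxy d hdx hdy
      have := hN y x hxy.symm d hdy hdx
      exact ⟨this.2.2, this.2.1, this.1⟩)
    refine ⟨φ, Or.inr fun i j hij => ?_⟩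
    have := hφ j i ⟨hij.1.symm, fun h => hij.2 ⟨h.2, h.1⟩⟩
    exact this

end

end Pool.MP_709f11_lc
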