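import Mathlib

/-!
# Star colourings of `2p`-regular graphs with `p+2` colours
-/

namespace Pool.MP_709f11_lc

open Finset Classical

variable {V C : Type} [Fintype V] [Fintype C]

/-- star colouring with an arbitrary set of colours -/
structure StarCol (G : SimpleGraph V) (f : V → C) : Prop where
  proper : ∀ a b, G.Adj a b → f a ≠ f b
  p4 : ∀ a b c d, a ≠ c → a ≠ d → b ≠ d → G.Adj a b → G.Adj b c → G.Adj c d →
    ¬ (f a = f c ∧ f b = f d)

theorem structure_lemma (G : SimpleGraph V) (p : ℕ) (hp : 2 ≤ p) (hC : Fintype.card C = p + 2)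
    (hreg : ∀ v, (univ.filter fun w => G.Adj v w).card = 2 * p) (f : V → C) (hf : StarCol G f) :
    ∃ g : V → C, (∀ v, g v ≠ f v) ∧ (∀ v w, G.Adj v w → (g v = f w ↔ ¬ g w = f v)) ∧
      ∀ v w w', G.Adj v w → G.Adj v w' → f w = f w' → f w ≠ g v → w = w' := by
  let unit : V → V → Prop := fun v w => G.Adj v w ∧ ∀ w', G.Adj v w' → f w' = f w → w' = w
  let A : V → Finset V := fun v => univ.filter (unit v)
  have cover : ∀ v w, G.Adj v w → unit v w ∨ unit w v := by
    intro v w hvw
    by_contra hcon
    simp only [not_or] at hcon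
    obtain ⟨h1, h2⟩ := hcon
    have h1' : ∃ w', G.Adj v w' ∧ f w' = f w ∧ w' ≠ w := by
      by_contra h
      exact h1 ⟨hvw, fun w' ha he => by by_contra hne; exact h ⟨w', ha, he, hne⟩⟩
    have h2' : ∃ v', G.Adj w v' ∧ f v' = f v ∧ v' ≠ v := by
      by_contra h
      exact h2 ⟨hvw.symm, fun w' ha he => by by_contra hne; exact h ⟨w', ha, he, hne⟩⟩
    obtain ⟨w', ha, he, hne⟩ := h1'
    obtain ⟨v', ha', he', hne'⟩ := h2'
    refine hf.p4 v' w v w' hne' ?_ (Ne.symm hne) ha'.symm hvw.symm ha ⟨he', he.symm⟩
    intro h
    have := hf.proper _ _ hvw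
    rw [← he', ← he, h] at this
    exact this rfl
  have himg : ∀ v, (A v).image f ⊆ univ.erase (f v) := by
    intro v c hc
    rw [mem_image] at hc
    obtain ⟨w, hw, rfl⟩ := hc
    rw [mem_erase]
    exact ⟨(hf.proper _ _ (mem_filter.1 hw).2.1).symm, mem_univ _⟩
  have hcardimg : ∀ v, ((A v).image f).card = (A v).card := by
    intro v
    refine card_image_of_injOn ?_
    intro w hw w' hw' he
    have h1 := (mem_filter.1 (mem_coe.1 hw)).2
    have h2 := (mem_filter.1 (mem_coe.1 hw')).2
    exact h2.2 w h1.1 he
  have herase : ∀ v, ((univ : Finset C).erase (f v)).card = p + 1 := by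
    intro v
    rw [card_erase_of_mem (mem_univ _), card_univ, hC]
    rfl
  have hcard : ∀ v, (A v).card ≤ p := by
    intro v
    by_contra hcon
    have hle := card_le_card (himg v)
    rw [hcardimg, herase] at hle
    have heq : (A v).image f = univ.erase (f v) := by
      refine eq_of_subset_of_card_le (himg v) ?_
      rw [hcardimg, herase]
      omega
    have hsub : (univ.filter fun w => G.Adj v w) ⊆ A v := by
      intro w hw
      have hw' := (mem_filter.1 hw).2
      have : f w ∈ (A v).image f := by
        rw [heq, mem_erase]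
        exact ⟨(hf.proper _ _ hw').symm, mem_univ _⟩
      rw [mem_image] at this
      obtain ⟨w0, h0, h0'⟩ := this
      have := (mem_filter.1 h0).2.2 w hw' h0'.symm
      rw [this]
      exact h0
    have := card_le_card hsub
    rw [hreg] at this
    omega
  let a : V → V → ℕ := fun v w => if unit v w then 1 else 0
  let d : V → V → ℕ := fun v w => if G.Adj v w then 1 else 0
  have hda : ∀ v w, d v w ≤ a v w + a w v := by
    intro v w
    by_cases h : G.Adj v w
    · rcases cover v w h with h1 | h1 <;> simp [d, a, h1] <;> split_ifs <;> omega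
    · simp [d, h]
  have hsa : ∀ v, ∑ w, a v w = (A v).card := by
    intro v
    simp only [a, A]
    rw [card_filter]
  have hsd : ∀ v, ∑ w, d v w = 2 * p := by
    intro v
    rw [← hreg v]
    simp only [d]
    rw [card_filter]
  have hsum1 : ∑ x : V × V, d x.1 x.2 = Fintype.card V * (2 * p) := by
    rw [Fintype.sum_prod_type]
    simp [hsd]
  have hsum2 : ∑ x : V × V, (a x.1 x.2 + a x.2 x.1) = 2 * ∑ v, (A v).card := by
    rw [sum_add_distrib, Fintype.sum_prod_type]
    have : ∑ x : V × V, a x.2 x.1 = ∑ v, (A v).card := by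
      rw [Fintype.sum_prod_type_right]
      simp only [hsa]
    rw [this]
    simp only [hsa]
    ring
  have hsum3 : ∑ v, (A v).card ≤ Fintype.card V * p := by
    have := sum_le_card_nsmul univ (fun v => (A v).card) p fun v _ => hcard v
    simpa [card_univ] using this
  have hsum4 : ∑ x : V × V, d x.1 x.2 ≤ ∑ x : V × V, (a x.1 x.2 + a x.2 x.1) :=
    sum_le_sum fun x _ => hda _ _
  have hsum5 : ∑ v, (A v).card = Fintype.card V * p := by
    refine le_antisymm hsum3 ?_
    rw [hsum1, hsum2] at hsum4
    have : Fintype.card V * (2 * p) = 2 * (Fintype.card V * p) := by ring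
    omega
  have hA : ∀ v, (A v).card = p := by
    have h1 : ∑ v, (A v).card = ∑ _v : V, p := by
      rw [hsum5]; simp [card_univ]
    have := (sum_eq_sum_iff_of_le (fun v _ => hcard v)).1 h1
    exact fun v => this v (mem_univ v)
  have hda' : ∀ v w, d v w = a v w + a w v := by
    have h1 : ∑ x : V × V, d x.1 x.2 = ∑ x : V × V, (a x.1 x.2 + a x.2 x.1) := by
      rw [hsum1, hsum2, hsum5]; ring
    have := (sum_eq_sum_iff_of_le (fun x _ => hda _ _)).1 h1
    exact fun v w => this (v, w) (mem_univ _)
  have hins : ∀ v, (insert (f v) ((A v).image f)).card = p + 1 := by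
    intro v
    rw [card_insert_of_notMem, hcardimg, hA]
    intro h
    exact (mem_erase.1 (himg v h)).1 rfl
  have hg : ∀ v, ∃ c, c ∉ insert (f v) ((A v).image f) := by
    intro v
    by_contra hcon
    push Not at hcon
    have : (univ : Finset C) ⊆ insert (f v) ((A v).image f) := fun c _ => hcon c
    have := card_le_card this
    rw [hins, card_univ, hC] at this
    omega
  choose g hg using hg
  have hall : ∀ v c, c = g v ∨ c = f v ∨ c ∈ (A v).image f := by
    intro v c
    have h1 : insert (g v) (insert (f v) ((A v).image f)) = univ := by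
      refine eq_univ_of_card _ ?_
      rw [card_insert_of_notMem (hg v), hins, hC]
    have := mem_univ c
    rw [← h1] at this
    simpa using this
  have hunit : ∀ v w, G.Adj v w → (unit v w ↔ f w ≠ g v) := by
    intro v w hvw
    constructor
    · intro h he
      apply hg v
      rw [← he]
      exact mem_insert_of_mem (mem_image_of_mem f (mem_filter.2 ⟨mem_univ _, h⟩))
    · intro h
      rcases hall v (f w) with h1 | h1 | h1
      · exact absurd h1 h
      · exact absurd h1.symm (hf.proper _ _ hvw)
      · rw [mem_image] at h1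
        obtain ⟨w0, h0, h0'⟩ := h1
        have h2 := (mem_filter.1 h0).2
        have := h2.2 w hvw h0'.symm
        rw [this]
        exact h2
  refine ⟨g, fun v h => hg v (by rw [h]; exact mem_insert_self _ _), ?_, ?_⟩
  · intro v w hvw
    have h1 := hda' v w
    have h2 := hunit v w hvw
    have h3 := hunit w v hvw.symm
    simp only [d, a, hvw, if_true] at h1
    by_cases hu : unit v w
    · by_cases hu' : unit w v
      · simp [hu, hu'] at h1
      · have e1 := h2.1 hu
        have e2 : f v = g w := by
          by_contra h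
          exact hu' (h3.2 h)
        constructor
        · intro h; exact absurd h.symm e1
        · intro h; exact absurd e2.symm h
    · by_cases hu' : unit w v
      · have e1 := h3.1 hu'
        have e2 : f w = g v := by
          by_contra h
          exact hu (h2.2 h)
        constructor
        · intro _ h; exact e1 h.symm
        · intro _; exact e2.symm
      · simp [hu, hu'] at h1
  · intro v w w' h1 h2 he hne
    have := (hunit v w h1).2 hne
    exact (this.2 w' h2 he.symm).symm

omit [Fintype V] [Fintype C] in
/-- a labelling gives a star colouring -/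
theorem starCol_of_labels (G : SimpleGraph V) (f g : V → C)
    (h1 : ∀ v w, G.Adj v w → f v ≠ f w)
    (h2 : ∀ v w, G.Adj v w → g v = f w → g w ≠ f v)
    (h3 : ∀ v w w', G.Adj v w → G.Adj v w' → w ≠ w' → f w = f w' → g v = f w) : StarCol G f := by
  refine ⟨h1, ?_⟩
  rintro a b c d hac had hbd hab hbc hcd ⟨e1, e2⟩
  have k1 := h3 b a c hab.symm hbc hac e1
  have k2 := h3 c b d hbc.symm hcd hbd e2
  refine h2 b c hbc ?_ k2
  rw [k1, e1]

end Pool.MP_709f11_lc
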