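import Pool.Agent.MP_709f11_lc.Gadget
import Pool.Agent.MP_709f11_lc.Star

/-!
# The graph of a system of blocks
-/

namespace Pool.MP_709f11_lc

open Finset

/-- the arcs -/
abbrev Arc (p : ℕ) := {a : Sym p × Sym p // ok a.1 a.2}

/-- the vertices -/
abbrev Vx (B Q R : Type) (p : ℕ) := (B × Arc p) ⊕ (Q ⊕ R)

/-- three distinct symbols -/
def dist {p : ℕ} (i j k : Sym p) : Prop := i ≠ j ∧ j ≠ k ∧ i ≠ k

theorem dist.rot {p : ℕ} {i j k : Sym p} (h : dist i j k) : dist j k i :=
  ⟨h.2.1, h.2.2.symm, h.1.symm⟩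

/-- at least one of three distinct symbols is ordinary -/
theorem dist.cases {p : ℕ} {i j k : Sym p} (h : dist i j k) :
    ok i j ∨ (i = .inl false ∧ j = .inl true ∧ ∃ c, k = .inr c) ∨
      (i = .inl true ∧ j = .inl false ∧ ∃ c, k = .inr c) := by
  rcases i with i | i
  · rcases j with j | j
    · right
      rcases k with k | k
      · exfalso
        obtain ⟨h1, h2, h3⟩ := h
        revert h1 h2 h3
        cases i <;> cases j <;> cases k <;> simp
      · cases i <;> cases j
        · exact absurd rfl h.1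
        · exact Or.inl ⟨rfl, rfl, k, rfl⟩
        · exact Or.inr ⟨rfl, rfl, k, rfl⟩
        · exact absurd rfl h.1
    · exact Or.inl (ok_inr_right h.1)
  · exact Or.inl (ok_inr_left h.1.symm)

section

variable {B Q R : Type} {p : ℕ}

/-- gadget points -/
def gp (b : B) (i j : Sym p) (h : ok i j) : Vx B Q R p := .inl (b, ⟨(i, j), h⟩)

/-- points of class 2 blocks -/
def Qp (x : Q) : Vx B Q R p := .inr (.inl x)

/-- points of class 3 blocks -/
def Rp (x : R) : Vx B Q R p := .inr (.inr x)

variable [NeZero p] (q : B → Fin p → Q) (r : B → Fin p → R)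

/-- the point `(i,j)` of the line `{i,j,k}` in the copy `b` -/
def P (b : B) (i j k : Sym p) : Vx B Q R p :=
  if h : ok i j then gp b i j h
  else match i, k with
    | .inl false, .inr c => Qp (q b c)
    | .inl true, .inr c => Rp (r b c)
    | _, _ => gp b (.inr 0) (.inl false) (by simp [ok])

theorem P_ok (b : B) {i j : Sym p} (k : Sym p) (h : ok i j) : P q r b i j k = gp b i j h := by
  simp [P, h]

theorem P_ab (b : B) (c : Fin p) : P q r b (.inl false) (.inl true) (.inr c) = Qp (q b c) := by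
  simp [P, ok]

theorem P_ba (b : B) (c : Fin p) : P q r b (.inl true) (.inl false) (.inr c) = Rp (r b c) := by
  simp [P, ok]

omit [NeZero p] in
theorem gp_inj {b b' : B} {i j i' j' : Sym p} {h : ok i j} {h' : ok i' j'}
    (he : (gp b i j h : Vx B Q R p) = gp b' i' j' h') : b = b' ∧ i = i' ∧ j = j' := by
  simp only [gp, Sum.inl.injEq, Prod.mk.injEq, Subtype.mk.injEq] at he
  exact ⟨he.1, he.2.1, he.2.2⟩

/-- equality of points -/
theorem P_eq {b b' : B} {i j k i' j' k' : Sym p} (h : dist i j k) (h' : dist i' j' k')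
    (he : P q r b i j k = P q r b' i' j' k') :
    (i = i' ∧ j = j') ∧ ((ok i j ∧ b = b') ∨
      (i = .inl false ∧ j = .inl true ∧ ∃ c c', k = .inr c ∧ k' = .inr c' ∧ q b c = q b' c') ∨
      (i = .inl true ∧ j = .inl false ∧ ∃ c c', k = .inr c ∧ k' = .inr c' ∧ r b c = r b' c')) := by
  rcases h.cases with h1 | ⟨h1, h2, c, h3⟩ | ⟨h1, h2, c, h3⟩ <;>
  rcases h'.cases with h1' | ⟨h1', h2', c', h3'⟩ | ⟨h1', h2', c', h3'⟩
  · rw [P_ok q r b k h1, P_ok q r b' k' h1'] at he
    obtain ⟨e1, e2, e3⟩ := gp_inj he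
    exact ⟨⟨e2, e3⟩, Or.inl ⟨h1, e1⟩⟩
  · subst h1' h2' h3'
    rw [P_ok q r b k h1, P_ab] at he
    simp [gp, Qp] at he
  · subst h1' h2' h3'
    rw [P_ok q r b k h1, P_ba] at he
    simp [gp, Rp] at he
  · subst h1 h2 h3
    rw [P_ok q r b' k' h1', P_ab] at he
    simp [gp, Qp] at he
  · subst h1 h2 h3 h1' h2' h3'
    rw [P_ab, P_ab] at he
    simp only [Qp, Sum.inr.injEq, Sum.inl.injEq] at he
    exact ⟨⟨rfl, rfl⟩, Or.inr (Or.inl ⟨rfl, rfl, c, c', rfl, rfl, he⟩)⟩
  · subst h1 h2 h3 h1' h2' h3'
    rw [P_ab, P_ba] at he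
    simp [Rp, Qp] at he
  · subst h1 h2 h3
    rw [P_ok q r b' k' h1', P_ba] at he
    simp [gp, Rp] at he
  · subst h1 h2 h3 h1' h2' h3'
    rw [P_ba, P_ab] at he
    simp [Rp, Qp] at he
  · subst h1 h2 h3 h1' h2' h3'
    rw [P_ba, P_ba] at he
    simp only [Rp, Sum.inr.injEq] at he
    exact ⟨⟨rfl, rfl⟩, Or.inr (Or.inr ⟨rfl, rfl, c, c', rfl, rfl, he⟩)⟩

/-- directed edges -/
def Half (x y : Vx B Q R p) : Prop :=
  ∃ b i j k, dist i j k ∧ x = P q r b i j k ∧ y = P q r b j k i

/-- the graph -/
def Gr : SimpleGraph (Vx B Q R p) where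
  Adj x y := Half q r x y ∨ Half q r y x
  symm := ⟨fun x y h => h.symm⟩
  loopless := ⟨by
    have key : ∀ x : Vx B Q R p, ¬ Half q r x x := by
      rintro x ⟨b, i, j, k, h, h1, h2⟩
      have := (P_eq q r h h.rot (h1.symm.trans h2)).1.1
      exact h.1 this
    rintro x (h | h) <;> exact key x h⟩

theorem adj_P (b : B) {i j k : Sym p} (h : dist i j k) :
    (Gr q r).Adj (P q r b i j k) (P q r b j k i) := Or.inl ⟨b, i, j, k, h, rfl, rfl⟩

/-- neighbours of gadget points -/
theorem adj_gp_iff (b : B) {i j : Sym p} (h : ok i j) (w : Vx B Q R p) :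
    (Gr q r).Adj (gp b i j h) w ↔
      ∃ k, dist i j k ∧ (w = P q r b j k i ∨ w = P q r b k i j) := by
  constructor
  · rintro (⟨b', i', j', k', hd, h1, h2⟩ | ⟨b', i', j', k', hd, h1, h2⟩)
    · rcases hd.cases with hc | ⟨rfl, rfl, c, rfl⟩ | ⟨rfl, rfl, c, rfl⟩
      · rw [P_ok q r b' k' hc] at h1
        obtain ⟨rfl, rfl, rfl⟩ := gp_inj h1
        exact ⟨k', hd, Or.inl h2⟩
      · rw [P_ab] at h1; simp [gp, Qp] at h1
      · rw [P_ba] at h1; simp [gp, Rp] at h1
    · rcases hd.rot.cases with hc | ⟨rfl, rfl, c, rfl⟩ | ⟨rfl, rfl, c, rfl⟩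
      · rw [P_ok q r b' i' hc] at h2
        obtain ⟨rfl, rfl, rfl⟩ := gp_inj h2
        exact ⟨i', hd.rot, Or.inr h1⟩
      · rw [P_ab] at h2; simp [gp, Qp] at h2
      · rw [P_ba] at h2; simp [gp, Rp] at h2
  · rintro ⟨k, hd, rfl | rfl⟩
    · have := adj_P q r b hd
      rwa [P_ok q r b k h] at this
    · have := adj_P q r b hd.rot.rot
      rw [P_ok q r b k h] at this
      exact this.symm

theorem adj_Qp_iff (x : Q) (w : Vx B Q R p) :
    (Gr q r).Adj (Qp x) w ↔ ∃ b c, q b c = x ∧
      (w = gp b (.inl true) (.inr c) (by simp [ok]) ∨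
       w = gp b (.inr c) (.inl false) (by simp [ok])) := by
  constructor
  · rintro (⟨b', i', j', k', hd, h1, h2⟩ | ⟨b', i', j', k', hd, h1, h2⟩)
    · rcases hd.cases with hc | ⟨rfl, rfl, c, rfl⟩ | ⟨rfl, rfl, c, rfl⟩
      · rw [P_ok q r b' k' hc] at h1; simp [gp, Qp] at h1
      · rw [P_ab] at h1
        simp only [Qp, Sum.inr.injEq, Sum.inl.injEq] at h1
        refine ⟨b', c, h1.symm, Or.inl ?_⟩
        rw [h2, P_ok _ _ _ _ (by simp [ok])]
      · rw [P_ba] at h1; simp [Qp, Rp] at h1
    · rcases hd.rot.cases with hc | ⟨rfl, rfl, c, rfl⟩ | ⟨rfl, rfl, c, rfl⟩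
      · rw [P_ok q r b' i' hc] at h2; simp [gp, Qp] at h2
      · rw [P_ab] at h2
        simp only [Qp, Sum.inr.injEq, Sum.inl.injEq] at h2
        refine ⟨b', c, h2.symm, Or.inr ?_⟩
        rw [h1, P_ok _ _ _ _ (by simp [ok])]
      · rw [P_ba] at h2; simp [Qp, Rp] at h2
  · rintro ⟨b, c, rfl, rfl | rfl⟩
    · have := adj_P q r b (i := .inl false) (j := .inl true) (k := .inr c) (by simp [dist])
      rw [P_ab, P_ok q r b (.inl false) (by simp [ok])] at this
      exact this
    · have := adj_P q r b (i := .inr c) (j := .inl false) (k := .inl true) (by simp [dist])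
      rw [P_ab, P_ok q r b (.inl true) (by simp [ok])] at this
      exact this.symm

theorem adj_Rp_iff (x : R) (w : Vx B Q R p) :
    (Gr q r).Adj (Rp x) w ↔ ∃ b c, r b c = x ∧
      (w = gp b (.inl false) (.inr c) (by simp [ok]) ∨
       w = gp b (.inr c) (.inl true) (by simp [ok])) := by
  constructor
  · rintro (⟨b', i', j', k', hd, h1, h2⟩ | ⟨b', i', j', k', hd, h1, h2⟩)
    · rcases hd.cases with hc | ⟨rfl, rfl, c, rfl⟩ | ⟨rfl, rfl, c, rfl⟩
      · rw [P_ok q r b' k' hc] at h1; simp [gp, Rp] at h1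
      · rw [P_ab] at h1; simp [Qp, Rp] at h1
      · rw [P_ba] at h1
        simp only [Rp, Sum.inr.injEq] at h1
        refine ⟨b', c, h1.symm, Or.inl ?_⟩
        rw [h2, P_ok _ _ _ _ (by simp [ok])]
    · rcases hd.rot.cases with hc | ⟨rfl, rfl, c, rfl⟩ | ⟨rfl, rfl, c, rfl⟩
      · rw [P_ok q r b' i' hc] at h2; simp [gp, Rp] at h2
      · rw [P_ab] at h2; simp [Qp, Rp] at h2
      · rw [P_ba] at h2
        simp only [Rp, Sum.inr.injEq] at h2
        refine ⟨b', c, h2.symm, Or.inr ?_⟩
        rw [h1, P_ok _ _ _ _ (by simp [ok])]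
  · rintro ⟨b, c, rfl, rfl | rfl⟩
    · have := adj_P q r b (i := .inl true) (j := .inl false) (k := .inr c) (by simp [dist])
      rw [P_ba, P_ok q r b (.inl true) (by simp [ok])] at this
      exact this
    · have := adj_P q r b (i := .inr c) (j := .inl true) (k := .inl false) (by simp [dist])
      rw [P_ba, P_ok q r b (.inl false) (by simp [ok])] at this
      exact this.symm

end

/-! ### line structure -/

section

variable {V : Type} {p : ℕ}

/-- the neighbourhood of `v` is covered by `p` disjoint edges -/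
def LineAt (G : SimpleGraph V) (p : ℕ) (v : V) : Prop :=
  ∃ (L : Type) (_ : Fintype L) (nb : L × Bool → V), Fintype.card L = p ∧
    Function.Injective nb ∧ (∀ w, G.Adj v w ↔ ∃ x, nb x = w) ∧
      ∀ l, G.Adj (nb (l, false)) (nb (l, true))

open Classical in
theorem LineAt.card [Fintype V] {G : SimpleGraph V} {v : V} (h : LineAt G p v) :
    (univ.filter fun w => G.Adj v w).card = 2 * p := by
  obtain ⟨L, _, nb, h1, h2, h3, h4⟩ := h
  have : (univ.filter fun w => G.Adj v w) = univ.image nb := by
    ext w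
    simp only [mem_filter, mem_univ, true_and, mem_image]
    exact h3 w
  rw [this, card_image_of_injective _ h2, card_univ, Fintype.card_prod, h1]
  simp [mul_comm]

theorem LineAt.free {G : SimpleGraph V} (h : ∀ v, LineAt G p v) :
    IsEmpty (completeBipartiteGraph (Fin 1) (Fin (p + 1)) ↪g G) := by
  refine ⟨fun e => ?_⟩
  obtain ⟨L, _, nb, h1, h2, h3, h4⟩ := h (e (.inl 0))
  have hadj : ∀ i : Fin (p + 1), G.Adj (e (.inl 0)) (e (.inr i)) := by
    intro i
    rw [e.map_adj_iff]
    simp
  have hnon : ∀ i j : Fin (p + 1), ¬ G.Adj (e (.inr i)) (e (.inr j)) := by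
    intro i j h
    rw [e.map_adj_iff] at h
    simp at h
  choose x hx using fun i => (h3 _).1 (hadj i)
  obtain ⟨i, j, hij, he⟩ := Fintype.exists_ne_map_eq_of_card_lt (fun i => (x i).1)
    (by rw [h1, Fintype.card_fin]; omega)
  have hne : (x i).2 ≠ (x j).2 := by
    intro h
    have : x i = x j := Prod.ext he h
    have : e (.inr i) = e (.inr j) := by rw [← hx i, ← hx j, this]
    have := e.injective this
    exact hij (Sum.inr.inj this)
  cases hi : (x i).2 <;> cases hj : (x j).2
  · exact hne (by rw [hi, hj])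
  · apply hnon i j
    rw [← hx i, ← hx j]
    have := h4 (x i).1
    rwa [show nb ((x i).1, false) = nb (x i) by rw [← hi], show nb ((x i).1, true) = nb (x j) by
      rw [← hj, he]] at this
  · apply hnon j i
    rw [← hx i, ← hx j]
    have := h4 (x i).1
    rwa [show nb ((x i).1, true) = nb (x i) by rw [← hi], show nb ((x i).1, false) = nb (x j) by
      rw [← hj, he]] at this
  · exact hne (by rw [hi, hj])

end

section

variable {B Q R : Type} {p : ℕ} [NeZero p] (eq : B × Fin p ≃ Q × Fin p) (er : B × Fin p ≃ R × Fin p)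

/-- the graph of three partitions -/
abbrev Gq (eq : B × Fin p ≃ Q × Fin p) (er : B × Fin p ≃ R × Fin p) : SimpleGraph (Vx B Q R p) :=
  Gr (fun b c => (eq (b, c)).1) (fun b c => (er (b, c)).1)

theorem lineAt (v : Vx B Q R p) : LineAt (Gq eq er) p v := by
  rcases v with ⟨b, ⟨⟨i, j⟩, h⟩⟩ | x | x
  · refine ⟨{k : Sym p // k ≠ i ∧ k ≠ j}, inferInstance, fun x =>
      if x.2 then P (fun b c => (eq (b, c)).1) (fun b c => (er (b, c)).1) b x.1.1 i j
      else P (fun b c => (eq (b, c)).1) (fun b c => (er (b, c)).1) b j x.1.1 i, ?_, ?_, ?_, ?_⟩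
    · have h1 : Fintype.card {k : Sym p // k ≠ i ∧ k ≠ j} = (univ.erase i |>.erase j).card := by
        rw [Fintype.card_subtype]
        congr 1
        ext k
        simp only [mem_filter, mem_univ, true_and, mem_erase]
        tauto
      rw [h1, card_erase_of_mem, card_erase_of_mem (mem_univ _), card_univ]
      · simp
      · rw [mem_erase]
        exact ⟨h.1.symm, mem_univ _⟩
    · rintro ⟨⟨k, hk⟩, e⟩ ⟨⟨k', hk'⟩, e'⟩ he
      have hd : dist i j k := ⟨h.1, hk.2.symm, hk.1.symm⟩
      have hd' : dist i j k' := ⟨h.1, hk'.2.symm, hk'.1.symm⟩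
      cases e <;> cases e'
      · simp only [Bool.false_eq_true, if_false] at he
        have := (P_eq _ _ hd.rot hd'.rot he).1.2
        simp [this]
      · simp only [Bool.false_eq_true, if_false, if_true] at he
        have := (P_eq _ _ hd.rot hd'.rot.rot he).1.1
        exact absurd this hk'.2.symm
      · simp only [Bool.false_eq_true, if_false, if_true] at he
        have := (P_eq _ _ hd.rot.rot hd'.rot he).1.1
        exact absurd this hk.2
      · simp only [if_true] at he
        have := (P_eq _ _ hd.rot.rot hd'.rot.rot he).1.1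
        simp [this]
    · intro w
      rw [show (Sum.inl (b, ⟨(i, j), h⟩) : Vx B Q R p) = gp b i j h from rfl, adj_gp_iff]
      constructor
      · rintro ⟨k, hd, hw | hw⟩
        · exact ⟨(⟨k, hd.2.2.symm, hd.2.1.symm⟩, false), by simp [hw]⟩
        · exact ⟨(⟨k, hd.2.2.symm, hd.2.1.symm⟩, true), by simp [hw]⟩
      · rintro ⟨⟨⟨k, hk⟩, e⟩, hw⟩
        refine ⟨k, ⟨h.1, hk.2.symm, hk.1.symm⟩, ?_⟩
        cases e
        · left; simpa using hw.symm
        · right; simpa using hw.symm
    · rintro ⟨k, hk⟩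
      have hd : dist i j k := ⟨h.1, hk.2.symm, hk.1.symm⟩
      simpa using adj_P (fun b c => (eq (b, c)).1) (fun b c => (er (b, c)).1) b hd.rot
  · refine ⟨Fin p, inferInstance, fun y =>
      if y.2 then gp (eq.symm (x, y.1)).1 (.inl true) (.inr (eq.symm (x, y.1)).2) (by simp [ok])
      else gp (eq.symm (x, y.1)).1 (.inr (eq.symm (x, y.1)).2) (.inl false) (by simp [ok]),
      Fintype.card_fin _, ?_, ?_, ?_⟩
    · rintro ⟨k, e⟩ ⟨k', e'⟩ he
      cases e <;> cases e'
      · simp only [Bool.false_eq_true, if_false] at he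
        obtain ⟨e1, e2, -⟩ := gp_inj he
        have : eq.symm (x, k) = eq.symm (x, k') := Prod.ext e1 (Sum.inr.inj e2)
        have := eq.symm.injective this
        simp only [Prod.mk.injEq, true_and] at this
        rw [this]
      · simp only [Bool.false_eq_true, if_false, if_true] at he
        obtain ⟨-, e2, -⟩ := gp_inj he
        simp at e2
      · simp only [Bool.false_eq_true, if_false, if_true] at he
        obtain ⟨-, e2, -⟩ := gp_inj he
        simp at e2
      · simp only [if_true] at he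
        obtain ⟨e1, -, e2⟩ := gp_inj he
        have : eq.symm (x, k) = eq.symm (x, k') := Prod.ext e1 (Sum.inr.inj e2)
        have := eq.symm.injective this
        simp only [Prod.mk.injEq, true_and] at this
        rw [this]
    · intro w
      rw [show (Sum.inr (Sum.inl x) : Vx B Q R p) = Qp x from rfl, adj_Qp_iff]
      constructor
      · rintro ⟨b, c, hbc, hw | hw⟩
        · have h1 : eq.symm (x, (eq (b, c)).2) = (b, c) := by
            rw [Equiv.symm_apply_eq]; exact Prod.ext hbc.symm rfl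
          exact ⟨((eq (b, c)).2, true), by simp [h1, hw]⟩
        · have h1 : eq.symm (x, (eq (b, c)).2) = (b, c) := by
            rw [Equiv.symm_apply_eq]; exact Prod.ext hbc.symm rfl
          exact ⟨((eq (b, c)).2, false), by simp [h1, hw]⟩
      · rintro ⟨⟨k, e⟩, hw⟩
        refine ⟨(eq.symm (x, k)).1, (eq.symm (x, k)).2, by simp, ?_⟩
        cases e
        · right; simpa using hw.symm
        · left; simpa using hw.symm
    · intro k
      have := adj_P (fun b c => (eq (b, c)).1) (fun b c => (er (b, c)).1) (eq.symm (x, k)).1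
        (i := .inl true) (j := .inr (eq.symm (x, k)).2) (k := .inl false) (by simp [dist])
      rw [P_ok _ _ _ _ (by simp [ok]), P_ok _ _ _ _ (by simp [ok])] at this
      simpa using this.symm
  · refine ⟨Fin p, inferInstance, fun y =>
      if y.2 then gp (er.symm (x, y.1)).1 (.inl false) (.inr (er.symm (x, y.1)).2) (by simp [ok])
      else gp (er.symm (x, y.1)).1 (.inr (er.symm (x, y.1)).2) (.inl true) (by simp [ok]),
      Fintype.card_fin _, ?_, ?_, ?_⟩
    · rintro ⟨k, e⟩ ⟨k', e'⟩ he
      cases e <;> cases e'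
      · simp only [Bool.false_eq_true, if_false] at he
        obtain ⟨e1, e2, -⟩ := gp_inj he
        have : er.symm (x, k) = er.symm (x, k') := Prod.ext e1 (Sum.inr.inj e2)
        have := er.symm.injective this
        simp only [Prod.mk.injEq, true_and] at this
        rw [this]
      · simp only [Bool.false_eq_true, if_false, if_true] at he
        obtain ⟨-, e2, -⟩ := gp_inj he
        simp at e2
      · simp only [Bool.false_eq_true, if_false, if_true] at he
        obtain ⟨-, e2, -⟩ := gp_inj he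
        simp at e2
      · simp only [if_true] at he
        obtain ⟨e1, -, e2⟩ := gp_inj he
        have : er.symm (x, k) = er.symm (x, k') := Prod.ext e1 (Sum.inr.inj e2)
        have := er.symm.injective this
        simp only [Prod.mk.injEq, true_and] at this
        rw [this]
    · intro w
      rw [show (Sum.inr (Sum.inr x) : Vx B Q R p) = Rp x from rfl, adj_Rp_iff]
      constructor
      · rintro ⟨b, c, hbc, hw | hw⟩
        · have h1 : er.symm (x, (er (b, c)).2) = (b, c) := by
            rw [Equiv.symm_apply_eq]; exact Prod.ext hbc.symm rfl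
          exact ⟨((er (b, c)).2, true), by simp [h1, hw]⟩
        · have h1 : er.symm (x, (er (b, c)).2) = (b, c) := by
            rw [Equiv.symm_apply_eq]; exact Prod.ext hbc.symm rfl
          exact ⟨((er (b, c)).2, false), by simp [h1, hw]⟩
      · rintro ⟨⟨k, e⟩, hw⟩
        refine ⟨(er.symm (x, k)).1, (er.symm (x, k)).2, by simp, ?_⟩
        cases e
        · right; simpa using hw.symm
        · left; simpa using hw.symm
    · intro k
      have := adj_P (fun b c => (eq (b, c)).1) (fun b c => (er (b, c)).1) (er.symm (x, k)).1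
        (i := .inl false) (j := .inr (er.symm (x, k)).2) (k := .inl true) (by simp [dist])
      rw [P_ok _ _ _ _ (by simp [ok]), P_ok _ _ _ _ (by simp [ok])] at this
      simpa using this.symm

end

end Pool.MP_709f11_lc
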