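import Pool.Agent.MP_709f11_lc.FromCol
import Pool.Agent.NPC.More
import Pool.Agent.NPC.ColFamily

/-!
# The graph of the reduction is polynomial time computable
-/

namespace Pool.MP_709f11_lc

open Pool.NPC

section

variable {m : ℕ}

/-- kinds of vertices -/
abbrev Kd (m : ℕ) := (Bk m × Arc (m + 2)) ⊕ (Bk m ⊕ Rk m)

/-- number of kinds -/
noncomputable def cK (m : ℕ) : ℕ := Fintype.card (Kd m)

/-- numbering of the kinds -/
noncomputable def eK (m : ℕ) : Kd m ≃ Fin (cK m) := Fintype.equivFin _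

/-- vertices by base pair and kind -/
def eV (M m : ℕ) : Vx (Bt M m) (Bt M m) (Rt M m) (m + 2) ≃ Fin M × Fin M × Kd m where
  toFun x := match x with
    | .inl ((v, w, β), a) => (v, w, .inl (β, a))
    | .inr (.inl (v, w, β)) => (v, w, .inr (.inl β))
    | .inr (.inr (v, w, ρ)) => (v, w, .inr (.inr ρ))
  invFun y := match y with
    | (v, w, .inl (β, a)) => .inl ((v, w, β), a)
    | (v, w, .inr (.inl β)) => .inr (.inl (v, w, β))
    | (v, w, .inr (.inr ρ)) => .inr (.inr (v, w, ρ))
  left_inv := by rintro (⟨⟨v, w, β⟩, a⟩ | ⟨v, w, β⟩ | ⟨v, w, ρ⟩) <;> rfl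
  right_inv := by rintro ⟨v, w, (⟨β, a⟩ | β | ρ)⟩ <;> rfl

/-- numbers of vertices -/
noncomputable def eN (M m : ℕ) :
    Vx (Bt M m) (Bt M m) (Rt M m) (m + 2) ≃ Fin (M * (M * cK m)) :=
  (eV M m).trans ((Equiv.prodCongr (Equiv.refl _)
    ((Equiv.prodCongr (Equiv.refl _) (eK m)).trans finProdFinEquiv)).trans finProdFinEquiv)

/-- number of a vertex -/
noncomputable def numV (M v w : ℕ) (κ : Kd m) : ℕ := ((eK m κ).val + cK m * w) + (M * cK m) * v

theorem eN_val (M : ℕ) (x : Vx (Bt M m) (Bt M m) (Rt M m) (m + 2)) :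
    (eN M m x).val = numV M (eV M m x).1 (eV M m x).2.1 (eV M m x).2.2 := rfl

/-- base pair -/
noncomputable def vN (m M z : ℕ) : ℕ := z / (M * cK m)

/-- base pair -/
noncomputable def wN (m M z : ℕ) : ℕ := z % (M * cK m) / cK m

theorem numV_lt (M w : ℕ) (κ : Kd m) (hw : w < M) : (eK m κ).val + cK m * w < M * cK m := by
  have h1 := (eK m κ).isLt
  have h2 : cK m * (w + 1) ≤ cK m * M := Nat.mul_le_mul_left _ hw
  rw [Nat.mul_comm M]
  rw [Nat.mul_succ] at h2
  omega

theorem vN_numV (M v w : ℕ) (κ : Kd m) (hw : w < M) : vN m M (numV M v w κ) = v := by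
  have h := numV_lt M w κ hw
  unfold vN numV
  rw [Nat.add_mul_div_left _ _ (by omega), Nat.div_eq_of_lt h, Nat.zero_add]

theorem wN_numV (M v w : ℕ) (κ : Kd m) (hw : w < M) : wN m M (numV M v w κ) = w := by
  have h := numV_lt M w κ hw
  have h1 := (eK m κ).isLt
  unfold wN numV
  rw [Nat.add_mul_mod_self_left, Nat.mod_eq_of_lt h, Nat.add_mul_div_left _ _ (by omega),
    Nat.div_eq_of_lt h1, Nat.zero_add]

/-- number of a point on a line -/
noncomputable def locN (M : ℕ) (A : ℕ → ℕ → Bool) (v w : ℕ) (β : Bk m) (i j k : Sym (m + 2)) : ℕ :=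
  if h : ok i j then numV M v w (.inl (β, ⟨(i, j), h⟩))
  else match i, k with
    | .inl false, .inr c =>
      match β with
      | .inl (e, t) =>
        if c = 0 then
          (if e then numV M v w (.inr (.inl (.inl (false, t))) : Kd m)
            else numV M v ((M - 1 % M + w) % M) (.inr (.inl (.inl (true, t))) : Kd m))
        else numV M v w (.inr (.inl (.inl (e, t))) : Kd m)
      | .inr i => numV M v w (.inr (.inl (.inr i)) : Kd m)
    | .inl true, .inr c =>
      match β, c with
      | .inl (e, t), ⟨0, _⟩ =>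
        if e then (if A w v then numV M w v (.inr (.inr (.inl t)) : Kd m)
            else numV M w v (.inr (.inr (.inl 1)) : Kd m))
          else (if A v w then numV M v w (.inr (.inr (.inl t)) : Kd m)
            else numV M v w (.inr (.inr (.inl 0)) : Kd m))
      | .inl (e, _), ⟨c + 1, h⟩ => numV M v w (.inr (.inr (.inr (e, ⟨c, by omega⟩))) : Kd m)
      | .inr i, t => if A v w then numV M v w (.inr (.inr (.inl t)) : Kd m)
            else numV M v w (.inr (.inr (.inl i.succ.succ)) : Kd m)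
    | _, _ => numV M v w (.inl (β, ⟨(.inr 0, .inl false), by simp [ok]⟩))

theorem locN_eq (M : ℕ) [NeZero M] (A : ℕ → ℕ → Bool) (A' : Fin M → Fin M → Bool)
    (hA : ∀ v w, A' v w = A v w) (v w : Fin M) (β : Bk m) (i j k : Sym (m + 2)) :
    (eN M m (P (fun b c => (eqE M m (b, c)).1) (fun b c => (erE A' (b, c)).1) (v, w, β) i j k)).val =
      locN M A v w β i j k := by
  unfold P locN
  by_cases h : ok i j
  · simp only [h, dif_pos]
    rfl
  · simp only [h, dif_neg, not_false_eq_true]
    rcases i with (_ | _) | i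
    · rcases k with k | c
      · rfl
      · show (eN M m (Qp (qf (v, w, β) c))).val = _
        rcases β with ⟨e, t⟩ | i
        · by_cases hc : c = 0
          · cases e
            · simp only [qf, hc, if_true, Bool.false_eq_true, if_false]
              rw [eN_val]
              show numV M v (w - 1 : Fin M).val _ = _
              rw [Fin.val_sub]
              rfl
            · simp only [qf, hc, if_true]
              rfl
          · simp only [qf, hc, if_false]
            rfl
        · rfl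
    · rcases k with k | c
      · rfl
      · show (eN M m (Rp (rf A' ((v, w, β), c)).1)).val = _
        rcases β with ⟨e, t⟩ | i
        · obtain ⟨_ | c, hc⟩ := c
          · cases e
            · show (eN M m (Rp (v, w, .inl (rc (A' v w) (0, t)).1))).val = _
              rw [hA]
              cases h2 : A v w <;> simp [rc] <;> rfl
            · show (eN M m (Rp (w, v, .inl (rc (A' w v) (1, t)).1))).val = _
              rw [hA]
              cases h2 : A w v <;> simp [rc] <;> rfl
          · rfl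
        · show (eN M m (Rp (v, w, .inl (rc (A' v w) (i.succ.succ, c)).1))).val = _
          rw [hA]
          cases h2 : A v w <;> simp [rc] <;> rfl
    · rfl

/-- edge kinds -/
noncomputable def edgeKinds (m : ℕ) : List (Bk m × Sym (m + 2) × Sym (m + 2) × Sym (m + 2)) :=
  (Finset.univ : Finset (Bk m × Sym (m + 2) × Sym (m + 2) × Sym (m + 2))).toList.filter
    fun x => decide (x.2.1 ≠ x.2.2.1) && decide (x.2.2.1 ≠ x.2.2.2) && decide (x.2.1 ≠ x.2.2.2)

theorem mem_edgeKinds (m : ℕ) (β : Bk m) (i j k : Sym (m + 2)) :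
    (β, i, j, k) ∈ edgeKinds m ↔ dist i j k := by
  simp [edgeKinds, dist, and_assoc]

/-- directed edges, on numbers -/
noncomputable def halfN (m M : ℕ) (A : ℕ → ℕ → Bool) (x y : ℕ) : Bool :=
  (edgeKinds m).any fun e =>
    (x == locN M A (vN m M x) (wN m M x) e.1 e.2.1 e.2.2.1 e.2.2.2 &&
      y == locN M A (vN m M x) (wN m M x) e.1 e.2.2.1 e.2.2.2 e.2.1) ||
    (x == locN M A (vN m M y) (wN m M y) e.1 e.2.1 e.2.2.1 e.2.2.2 &&
      y == locN M A (vN m M y) (wN m M y) e.1 e.2.2.1 e.2.2.2 e.2.1)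

/-- adjacency, on numbers -/
noncomputable def adjN (m M : ℕ) (A : ℕ → ℕ → Bool) (x y : ℕ) : Bool :=
  halfN m M A x y || halfN m M A y x

theorem eV_fst_lt (M : ℕ) (x : Vx (Bt M m) (Bt M m) (Rt M m) (m + 2)) :
    vN m M (eN M m x).val = (eV M m x).1 ∧ wN m M (eN M m x).val = (eV M m x).2.1 := by
  rw [eN_val]
  exact ⟨vN_numV _ _ _ _ (Fin.isLt _), wN_numV _ _ _ _ (Fin.isLt _)⟩

theorem halfN_iff (M : ℕ) [NeZero M] (A : ℕ → ℕ → Bool) (A' : Fin M → Fin M → Bool)
    (hA : ∀ v w, A' v w = A v w) (x y : Vx (Bt M m) (Bt M m) (Rt M m) (m + 2)) :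
    halfN m M A (eN M m x) (eN M m y) = true ↔
      Half (fun b c => (eqE M m (b, c)).1) (fun b c => (erE A' (b, c)).1) x y := by
  have hx := eV_fst_lt M x
  have hy := eV_fst_lt M y
  unfold halfN
  rw [List.any_eq_true, hx.1, hx.2, hy.1, hy.2]
  constructor
  · rintro ⟨⟨β, i, j, k⟩, hmem, h⟩
    rw [mem_edgeKinds] at hmem
    simp only [Bool.or_eq_true, Bool.and_eq_true, beq_iff_eq] at h
    rcases h with ⟨h1, h2⟩ | ⟨h1, h2⟩
    · rw [← locN_eq M A A' hA] at h1 h2
      refine ⟨((eV M m x).1, (eV M m x).2.1, β), i, j, k, hmem, ?_, ?_⟩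
      · exact (eN M m).injective (Fin.ext h1)
      · exact (eN M m).injective (Fin.ext h2)
    · rw [← locN_eq M A A' hA] at h1 h2
      refine ⟨((eV M m y).1, (eV M m y).2.1, β), i, j, k, hmem, ?_, ?_⟩
      · exact (eN M m).injective (Fin.ext h1)
      · exact (eN M m).injective (Fin.ext h2)
  · rintro ⟨⟨v, w, β⟩, i, j, k, hd, h1, h2⟩
    refine ⟨(β, i, j, k), (mem_edgeKinds m β i j k).2 hd, ?_⟩
    simp only [Bool.or_eq_true, Bool.and_eq_true, beq_iff_eq]
    -- one of the two points is a gadget point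
    have hcase : ok i j ∨ ok j k := by
      rcases hd.cases with h | ⟨rfl, rfl, c, rfl⟩ | ⟨rfl, rfl, c, rfl⟩
      · exact Or.inl h
      · right; simp [ok]
      · right; simp [ok]
    rcases hcase with h | h
    · left
      have e1 : eV M m x = (v, w, .inl (β, ⟨(i, j), h⟩)) := by
        rw [h1, P_ok _ _ _ _ h]; rfl
      rw [e1]
      simp only
      rw [← locN_eq M A A' hA, ← locN_eq M A A' hA, ← h1, ← h2]
      exact ⟨rfl, rfl⟩
    · right
      have e1 : eV M m y = (v, w, .inl (β, ⟨(j, k), h⟩)) := by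
        rw [h2, P_ok _ _ _ _ h]; rfl
      rw [e1]
      simp only
      rw [← locN_eq M A A' hA, ← locN_eq M A A' hA, ← h1, ← h2]
      exact ⟨rfl, rfl⟩

theorem adjN_iff (M : ℕ) [NeZero M] (A : ℕ → ℕ → Bool) (A' : Fin M → Fin M → Bool)
    (hA : ∀ v w, A' v w = A v w) (x y : Vx (Bt M m) (Bt M m) (Rt M m) (m + 2)) :
    adjN m M A (eN M m x) (eN M m y) = true ↔ (Gq (eqE M m) (erE A')).Adj x y := by
  unfold adjN
  rw [Bool.or_eq_true, halfN_iff M A A' hA, halfN_iff M A A' hA]
  rfl

/-! ### polynomial time -/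

variable {α : Type} [Enc α]

theorem PT.numV {M v w : α → ℕ} (κ : Kd m) (hM : PT M) (hv : PT v) (hw : PT w) :
    PT (fun s => numV (M s) (v s) (w s) κ) :=
  PT.add (PT.add (PT.const _) (PT.mul (PT.const _) hw)) (PT.mul (PT.mul hM (PT.const _)) hv)

theorem PT.locN {M v w : α → ℕ} {A : α → ℕ → ℕ → Bool} (β : Bk m) (i j k : Sym (m + 2))
    (hM : PT M) (hv : PT v) (hw : PT w)
    (hA : ∀ {f g : α → ℕ}, PT f → PT g → PT (fun s => A s (f s) (g s))) :
    PT (fun s => locN (M s) (A s) (v s) (w s) β i j k) := by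
  unfold Pool.MP_709f11_lc.locN
  by_cases h : ok i j
  · simp only [h, dif_pos]
    exact PT.numV _ hM hv hw
  · simp only [h, dif_neg, not_false_eq_true]
    rcases i with (_ | _) | i
    · rcases k with k | c
      · exact PT.numV _ hM hv hw
      · rcases β with ⟨e, t⟩ | i
        · by_cases hc : c = 0
          · cases e
            · simp only [hc, if_true, Bool.false_eq_true, if_false]
              exact PT.numV _ hM hv (PT.mod (PT.add (PT.sub hM (PT.mod (PT.const 1) hM)) hw) hM)
            · simp only [hc, if_true]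
              exact PT.numV _ hM hv hw
          · simp only [hc, if_false]
            exact PT.numV _ hM hv hw
        · exact PT.numV _ hM hv hw
    · rcases k with k | c
      · exact PT.numV _ hM hv hw
      · rcases β with ⟨e, t⟩ | i
        · obtain ⟨_ | c, hc⟩ := c
          · cases e
            · simp only [Bool.false_eq_true, if_false]
              exact PT.cond (hA hv hw) (PT.numV _ hM hv hw) (PT.numV _ hM hv hw)
            · simp only [if_true]
              exact PT.cond (hA hw hv) (PT.numV _ hM hw hv) (PT.numV _ hM hw hv)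
          · exact PT.numV _ hM hv hw
        · exact PT.cond (hA hv hw) (PT.numV _ hM hv hw) (PT.numV _ hM hv hw)
    · exact PT.numV _ hM hv hw

theorem PT.halfN {M x y : α → ℕ} {A : α → ℕ → ℕ → Bool} (hM : PT M) (hx : PT x) (hy : PT y)
    (hA : ∀ {f g : α → ℕ}, PT f → PT g → PT (fun s => A s (f s) (g s))) :
    PT (fun s => halfN m (M s) (A s) (x s) (y s)) := by
  unfold Pool.MP_709f11_lc.halfN
  have hMc : PT (fun s => M s * cK m) := PT.mul hM (PT.const _)
  have hvx : PT (fun s => vN m (M s) (x s)) := PT.div hx hMc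
  have hvy : PT (fun s => vN m (M s) (y s)) := PT.div hy hMc
  have hwx : PT (fun s => wN m (M s) (x s)) := PT.div (PT.mod hx hMc) (PT.const _)
  have hwy : PT (fun s => wN m (M s) (y s)) := PT.div (PT.mod hy hMc) (PT.const _)
  refine PT.anyList (edgeKinds m) (fun e _ => ?_)
  exact PT.or
    (PT.and (PT.beq hx (PT.locN _ _ _ _ hM hvx hwx hA)) (PT.beq hy (PT.locN _ _ _ _ hM hvx hwx hA)))
    (PT.and (PT.beq hx (PT.locN _ _ _ _ hM hvy hwy hA)) (PT.beq hy (PT.locN _ _ _ _ hM hvy hwy hA)))

theorem PT.adjN {M x y : α → ℕ} {A : α → ℕ → ℕ → Bool} (hM : PT M) (hx : PT x) (hy : PT y)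
    (hA : ∀ {f g : α → ℕ}, PT f → PT g → PT (fun s => A s (f s) (g s))) :
    PT (fun s => adjN m (M s) (A s) (x s) (y s)) :=
  PT.or (PT.halfN hM hx hy hA) (PT.halfN hM hy hx hA)

end

end Pool.MP_709f11_lc
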