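import Pool.Agent.MP_709f11_lc.Verify
import Pool.Agent.MP_709f11_lc.Poly

/-!
# NP-completeness of `(p+2)`-star colourability of `K_{1,p+1}`-free `2p`-regular graphs
-/

namespace Pool.Agent.MP_709f11_lc

open Pool.NPC Pool.MP_709f11_lc

section

variable {V W : Type}

theorem lineAt_comap (e : V ≃ W) (G : SimpleGraph W) (p : ℕ) (v : V) (h : LineAt G p (e v)) :
    LineAt (G.comap e) p v := by
  obtain ⟨L, i, nb, h1, h2, h3, h4⟩ := h
  refine ⟨L, i, fun x => e.symm (nb x), h1, e.symm.injective.comp h2, ?_, ?_⟩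
  · intro w
    rw [SimpleGraph.comap_adj, h3]
    constructor
    · rintro ⟨x, hx⟩
      exact ⟨x, by show e.symm (nb x) = w; rw [hx, e.symm_apply_apply]⟩
    · rintro ⟨x, hx⟩
      exact ⟨x, by rw [← hx, e.apply_symm_apply]⟩
  · intro l
    rw [SimpleGraph.comap_adj, e.apply_symm_apply, e.apply_symm_apply]
    exact h4 l

theorem inClass_of_lineAt {G : SimpleGraph V} {p : ℕ} (h : ∀ v, LineAt G p v) : InClass p G := by
  refine ⟨fun v => ?_, LineAt.free h⟩
  obtain ⟨L, _, nb, h1, h2, h3, h4⟩ := h v
  have : G.neighborSet v = nb '' Set.univ := by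
    ext w
    simp only [SimpleGraph.mem_neighborSet, Set.image_univ, Set.mem_range]
    exact h3 w
  rw [this, Set.ncard_image_of_injective _ h2, Set.ncard_univ, Nat.card_prod,
    Nat.card_eq_fintype_card, h1]
  simp [mul_comm]

theorem isStarColouring_comap_iff (e : V ≃ W) (G : SimpleGraph W) (k : ℕ) :
    (∃ f, IsStarColouring (G.comap e) k f) ↔ ∃ f : W → Fin k, StarCol G f := by
  constructor
  · rintro ⟨f, h1, h2⟩
    refine ⟨fun w => f (e.symm w), fun a b hab => ?_, fun a b c d k1 k2 k3 k4 k5 k6 => ?_⟩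
    · refine h1 _ _ ?_
      rw [SimpleGraph.comap_adj, e.apply_symm_apply, e.apply_symm_apply]
      exact hab
    · refine h2 (e.symm a) (e.symm b) (e.symm c) (e.symm d) (fun h => k1 (e.symm.injective h))
        (fun h => k2 (e.symm.injective h)) (fun h => k3 (e.symm.injective h)) ?_ ?_ ?_
      · rw [SimpleGraph.comap_adj, e.apply_symm_apply, e.apply_symm_apply]
        exact k4
      · rw [SimpleGraph.comap_adj, e.apply_symm_apply, e.apply_symm_apply]
        exact k5
      · rw [SimpleGraph.comap_adj, e.apply_symm_apply, e.apply_symm_apply]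
        exact k6
  · rintro ⟨f, hf⟩
    refine ⟨fun v => f (e v), fun a b hab => hf.proper _ _ hab,
      fun a b c d k1 k2 k3 k4 k5 k6 => hf.p4 _ _ _ _ (fun h => k1 (e.injective h))
        (fun h => k2 (e.injective h)) (fun h => k3 (e.injective h)) k4 k5 k6⟩

end

/-- the reduction is correct -/
theorem reduction_correct {m : ℕ} (hm : 1 ≤ m) (M : ℕ) [NeZero M] (A : Fin M → Fin M → Bool) :
    (∃ f : Vx (Bt M m) (Bt M m) (Rt M m) (m + 2) → Fin (m + 2 + 2),
      StarCol (Gq (eqE M m) (erE A)) f) ↔
      ∃ h : Fin M → Fin (m + 2), ∀ v w, A v w = true → h v ≠ h w := by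
  rw [← APC_iff A]
  constructor
  · rintro ⟨f, hf⟩
    exact APC_of_starCol (eqE M m) (erE A) (by omega) (by simp) f hf
  · rintro ⟨col, hcol⟩
    obtain ⟨f, hf⟩ := starCol_of_APC _ _ hcol
    have e : Sym (m + 2) ≃ Fin (m + 2 + 2) := Fintype.equivFinOfCardEq (by
      simp; omega)
    exact ⟨fun v => e (f v), hf.comp_injective e e.injective⟩

section

variable {α : Type} [Enc α]

/-- adjacency matrix strings of polynomial time families are polynomial time -/
theorem PT.encodeMat {n : α → ℕ} {A : α × (ℕ × ℕ) → Bool} (hn : PT n) (hA : PT A) :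
    PT (fun a => List.replicate (n a) true ++ false :: List.ofFn fun i : Fin (n a * n a) =>
      A (a, ((i.divNat : ℕ), (i.modNat : ℕ)))) := by
  have h1 : PT (fun a => List.replicate (n a) true ++ (false ::
      (List.range (n a * n a)).flatMap fun i => [A (a, (i / n a, i % n a))])) := by
    refine PT.append (PT.replicate hn) (PT.cons (PT.const false)
      (PT.flatMap (g := fun x => [A (x.1, (x.2 / n x.1, x.2 % n x.1))]) (PT.mul hn hn) ?_))
    have ha : PT (fun x : α × ℕ => x.1) := PT.fst
    have hi : PT (fun x : α × ℕ => x.2) := PT.snd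
    have hna := PT.comp hn ha
    exact PT.cons (PT.comp hA (PT.pair ha (PT.pair (PT.div hi hna) (PT.mod hi hna))))
      (PT.const [])
  refine h1.congr fun a => ?_
  congr 2
  rw [← List.map_eq_flatMap]
  apply List.ext_getElem
  · simp
  · intro i h1 h2
    simp [Fin.divNat, Fin.modNat]

end

/-- every language in NP reduces in polynomial time to the restricted problem, by a reduction whose
values are always graphs of the class -/
theorem reduction_exists (p : ℕ) (hp : 3 ≤ p) (L : Set (List Bool)) (hL : InNP L) :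
    ∃ f : List Bool → List Bool, PolyTimeComputable f ∧
      ∀ x, ∃ (n : ℕ) (G : SimpleGraph (Fin n)), f x = encodeGraph G ∧ InClass p G ∧
        (x ∈ L ↔ ∃ c, IsStarColouring G (p + 2) c) := by
  classical
  obtain ⟨m, rfl⟩ : ∃ m, p = m + 2 := ⟨p - 2, by omega⟩
  obtain ⟨n, adj, hn, hadj, hsymm, hirr, hlt, hcorr⟩ := colFamily (m + 2) hp L hL
  let M : List Bool → ℕ := fun s => n s + 1
  have hM : PT M := PT.succ hn
  let N : List Bool → ℕ := fun s => M s * (M s * cK m)
  have hN : PT N := PT.mul hM (PT.mul hM (PT.const _))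
  let a : List Bool × (ℕ × ℕ) → Bool := fun y =>
    adjN m (M y.1) (fun v w => adj (y.1, (v, w))) y.2.1 y.2.2
  have ha : PT a := by
    have hs : PT (fun y : List Bool × (ℕ × ℕ) => y.1) := PT.fst
    exact PT.adjN (PT.comp hM hs) (PT.fst' PT.snd) (PT.snd' PT.snd)
      (fun hf hg => PT.comp hadj (PT.pair hs (PT.pair hf hg)))
  refine ⟨_, (PT.encodeMat hN ha).polyTime, fun s => ?_⟩
  let A' : Fin (M s) → Fin (M s) → Bool := fun v w => adj (s, (v, w))
  let G : SimpleGraph (Fin (N s)) := (Gq (eqE (M s) m) (erE A')).comap (eN (M s) m).symm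
  have hG : ∀ (u v : Fin (N s)) [Decidable (G.Adj u v)],
      decide (G.Adj u v) = a (s, ((u : ℕ), (v : ℕ))) := by
    intro u v _
    have h1 := adjN_iff (M s) (fun v w => adj (s, (v, w))) A' (fun _ _ => rfl)
      ((eN (M s) m).symm u) ((eN (M s) m).symm v)
    rw [Equiv.apply_symm_apply, Equiv.apply_symm_apply] at h1
    have h2 : G.Adj u v ↔ a (s, ((u : ℕ), (v : ℕ))) = true := h1.symm
    by_cases h : G.Adj u v
    · simp [h, h2.1 h]
    · have h3 : a (s, ((u : ℕ), (v : ℕ))) = false := by
        rw [← Bool.not_eq_true]; exact fun h' => h (h2.2 h')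
      simp [h, h3]
  refine ⟨N s, G, ?_, inClass_of_lineAt fun v => lineAt_comap _ _ _ _ (lineAt _ _ _), ?_⟩
  · unfold encodeGraph
    simp only [hG]
  · rw [isStarColouring_comap_iff, reduction_correct (by omega), hcorr s]
    constructor
    · rintro ⟨col, hcol⟩
      exact ⟨fun v => col v, fun v w h => hcol v w h⟩
    · rintro ⟨h, hh⟩
      refine ⟨fun u => if hu : u < M s then h ⟨u, hu⟩ else 0, fun u v huv => ?_⟩
      have hu : u < M s := by
        have := hlt s u v huv
        show u < n s + 1
        omega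
      have hv : v < M s := by
        rw [hsymm] at huv
        have := hlt s v u huv
        show v < n s + 1
        omega
      simp only [hu, hv, dif_pos]
      exact hh ⟨u, hu⟩ ⟨v, hv⟩ huv

/-- the encoding determines the graph -/
theorem encodeGraph_inj {n n' : ℕ} {G : SimpleGraph (Fin n)} {G' : SimpleGraph (Fin n')}
    (h : encodeGraph G = encodeGraph G') : ∃ e : n = n', e ▸ G = G' := by
  classical
  obtain ⟨h1, -, -, h4⟩ := (eq_encode_iff G _).1 rfl
  obtain ⟨k1, -, -, k4⟩ := (eq_encode_iff G' _).1 rfl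
  have hn : n = n' := by
    rw [h, k1] at h1
    rcases lt_trichotomy n n' with hlt | heq | hgt
    · have := Nat.mul_self_lt_mul_self hlt
      omega
    · exact heq
    · have := Nat.mul_self_lt_mul_self hgt
      omega
  subst hn
  refine ⟨rfl, ?_⟩
  show G = G'
  ext u v
  have := h4 u v
  rw [h, k4] at this
  simpa using this.symm

/-- membership of an encoded graph in the restricted problem -/
theorem encodeGraph_mem_iff (p : ℕ) {n : ℕ} (G : SimpleGraph (Fin n)) :
    encodeGraph G ∈ starProblem p ↔ InClass p G ∧ ∃ f, IsStarColouring G (p + 2) f := by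
  constructor
  · rintro ⟨n', G', h1, h2⟩
    obtain ⟨e, he⟩ := encodeGraph_inj h1
    subst e
    have he' : G = G' := he
    rw [he']
    exact h2
  · intro h
    exact ⟨n, G, rfl, h.1, h.2⟩

/-- the restricted problem is NP-hard -/
theorem npHard_starProblem (p : ℕ) (hp : 3 ≤ p) : NPHard (starProblem p) := by
  intro L hL
  obtain ⟨f, hf, h⟩ := reduction_exists p hp L hL
  refine ⟨f, hf, fun x => ?_⟩
  obtain ⟨n, G, h1, h2, h3⟩ := h x
  rw [h1, encodeGraph_mem_iff, h3]
  exact ⟨fun h => ⟨h2, h⟩, fun h => h.2⟩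

end Pool.Agent.MP_709f11_lc
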