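import Pool.Agent.NPC.Defs

/-!
# `(p+2)`-star colourability of `K_{1,p+1}`-free `2p`-regular graphs
-/

namespace Pool.Agent.MP_709f11_lc

/-- A star colouring of `G` with the colours `Fin k`: a proper vertex colouring such that no path
`a b c d` on four vertices has only two colours. -/
def IsStarColouring {V : Type} (G : SimpleGraph V) (k : ℕ) (f : V → Fin k) : Prop :=
  (∀ a b, G.Adj a b → f a ≠ f b) ∧
  ∀ a b c d, a ≠ c → a ≠ d → b ≠ d → G.Adj a b → G.Adj b c → G.Adj c d →
    ¬ (f a = f c ∧ f b = f d)

/-- The class of `K_{1,p+1}`-free `2p`-regular graphs. -/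
def InClass (p : ℕ) {V : Type} (G : SimpleGraph V) : Prop :=
  (∀ v, (G.neighborSet v).ncard = 2 * p) ∧
  IsEmpty (completeBipartiteGraph (Fin 1) (Fin (p + 1)) ↪g G)

open Classical in
/-- A graph on `n` vertices as a bit string: `n` in unary, a zero, then the `n²` entries of the
adjacency matrix, row by row. -/
noncomputable def encodeGraph {n : ℕ} (G : SimpleGraph (Fin n)) : List Bool :=
  List.replicate n true ++ false :: List.ofFn fun i : Fin (n * n) => decide (G.Adj i.divNat i.modNat)

/-- `(p+2)`-STAR COLOURABILITY restricted to `K_{1,p+1}`-free `2p`-regular graphs, as a set of bit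
strings. -/
def starProblem (p : ℕ) : Set (List Bool) :=
  {s | ∃ (n : ℕ) (G : SimpleGraph (Fin n)), s = encodeGraph G ∧ InClass p G ∧
    ∃ f, IsStarColouring G (p + 2) f}

end Pool.Agent.MP_709f11_lc
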